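import Pool.Agent.H83.LS.Basic
import Pool.Agent.H83.LS.Targets1

/-!
Modules TCU and CUT: elementary facts on the cutoffs.
-/

set_option autoImplicit false

namespace Pool.Agent.H14.LS

open MeasureTheory Set Metric
open scoped ENNReal NNReal
open Pool.Agent.H83.LS

/-! ### TCU -/

theorem contDiffAt_ph (a : ℝ) {ζ : ℝ × ℝ} (h : 0 < ζ.1) : ContDiffAt ℝ (⊤ : ℕ∞) (ph a) ζ := by
  unfold ph
  have h1 : ContDiffAt ℝ (⊤ : ℕ∞) (fun ζ : ℝ × ℝ => ζ.1 ^ 2 + a ^ 2 * ζ.2 ^ 2) ζ :=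
    ((contDiff_fst.pow 2).add (contDiff_const.mul (contDiff_snd.pow 2))).contDiffAt
  have h0 : 0 < ζ.1 ^ 2 + a ^ 2 * ζ.2 ^ 2 := by positivity
  have h2 := h1.sqrt h0.ne'
  have h3 : ContDiffAt ℝ (⊤ : ℕ∞) (fun ζ : ℝ × ℝ => ζ.2 ^ 2) ζ := (contDiff_snd.pow 2).contDiffAt
  refine h3.div (h2.add contDiff_fst.contDiffAt) ?_
  positivity

/-- module TCU -/
theorem tcu : T_TCU := by
  intro a _ s b hb hs
  refine ⟨?_, hb.2.mul_left⟩
  rw [contDiff_iff_contDiffAt]
  intro ζ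
  by_cases hζ : 0 < ζ.1
  · have h1 := contDiffAt_ph a hζ
    exact ((contDiff_e.contDiffAt).comp ζ (contDiffAt_const.mul h1)).mul hb.1.contDiffAt
  · have hopen : IsOpen {ζ : ℝ × ℝ | ζ.1 < 1 / 16} := isOpen_lt continuous_fst continuous_const
    have heq : (fun ζ => e (s * ph a ζ) * b ζ) =ᶠ[nhds ζ] fun _ => 0 := by
      filter_upwards [hopen.mem_nhds (show ζ.1 < 1 / 16 by linarith)] with w hw
      have : b w = 0 := by
        by_contra hcon
        have h1 := hs w hcon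
        have h2 : w.1 < 1 / 16 := hw
        linarith
      rw [this, mul_zero]
    exact contDiffAt_const.congr_of_eventuallyEq heq

/-! ### The partition function -/

theorem T_zero {x : ℝ} (h : x ≤ 0) : Real.smoothTransition x = 0 := Real.smoothTransition.zero_of_nonpos h
theorem T_one {x : ℝ} (h : 1 ≤ x) : Real.smoothTransition x = 1 := Real.smoothTransition.one_of_one_le h
theorem T_nonneg (x : ℝ) : 0 ≤ Real.smoothTransition x := Real.smoothTransition.nonneg x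
theorem T_le_one (x : ℝ) : Real.smoothTransition x ≤ 1 := Real.smoothTransition.le_one x
theorem T_smooth : ContDiff ℝ (⊤ : ℕ∞) Real.smoothTransition := Real.smoothTransition.contDiff

theorem psi_smooth : ContDiff ℝ (⊤ : ℕ∞) psi := by
  unfold psi
  exact (T_smooth.comp (contDiff_id.add contDiff_const)).sub T_smooth

theorem psi2_smooth : ContDiff ℝ (⊤ : ℕ∞) psi2 := by
  unfold psi2
  exact ((psi_smooth.comp (contDiff_id.sub contDiff_const)).add psi_smooth).add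
    (psi_smooth.comp (contDiff_id.add contDiff_const))

theorem XX_smooth : ContDiff ℝ (⊤ : ℕ∞) XX := by
  unfold XX
  exact (T_smooth.comp ((contDiff_const.mul contDiff_id).sub contDiff_const)).mul
    (T_smooth.comp ((contDiff_const.sub contDiff_id).div_const _))

theorem psi_nonneg (x : ℝ) : 0 ≤ psi x := by
  unfold psi
  rcases le_total x 0 with h | h
  · rw [T_zero h, sub_zero]; exact T_nonneg _
  · rw [T_one (by linarith : 1 ≤ x + 1)]; linarith [T_le_one x]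

theorem psi_le_one (x : ℝ) : psi x ≤ 1 := by
  unfold psi
  linarith [T_nonneg x, T_le_one (x + 1)]

theorem psi_ne {x : ℝ} (h : psi x ≠ 0) : |x| < 1 := by
  by_contra hcon
  rw [not_lt, le_abs] at hcon
  apply h
  unfold psi
  rcases hcon with h1 | h1
  · rw [T_one (by linarith), T_one h1, sub_self]
  · rw [T_zero (by linarith), T_zero (by linarith), sub_self]

theorem psi2_eq (x : ℝ) : psi2 x = Real.smoothTransition (x + 2) - Real.smoothTransition (x - 1) := by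
  unfold psi2 psi
  rw [show x - 1 + 1 = x by ring, show x + 1 + 1 = x + 2 by ring]
  ring

theorem psi2_one {x : ℝ} (h : |x| ≤ 1) : psi2 x = 1 := by
  rw [abs_le] at h
  rw [psi2_eq, T_one (by linarith), T_zero (by linarith), sub_zero]

theorem psi2_ne {x : ℝ} (h : psi2 x ≠ 0) : |x| < 2 := by
  by_contra hcon
  rw [not_lt, le_abs] at hcon
  apply h
  rw [psi2_eq]
  rcases hcon with h1 | h1
  · rw [T_one (by linarith), T_one (by linarith), sub_self]
  · rw [T_zero (by linarith), T_zero (by linarith), sub_self]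

theorem XX_nonneg (x : ℝ) : 0 ≤ XX x := mul_nonneg (T_nonneg _) (T_nonneg _)

theorem XX_le_one (x : ℝ) : XX x ≤ 1 := mul_le_one₀ (T_le_one _) (T_nonneg _) (T_le_one _)

theorem XX_ne {x : ℝ} (h : XX x ≠ 0) : 1 / 8 < x ∧ x < 4 := by
  unfold XX at h
  constructor
  · by_contra hcon
    push Not at hcon
    apply h
    rw [T_zero (by linarith), zero_mul]
  · by_contra hcon
    push Not at hcon
    apply h
    rw [T_zero (x := (4 - x) / 2) (by linarith), mul_zero]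

theorem XX_one {x : ℝ} (h1 : 1 / 4 ≤ x) (h2 : x ≤ 2) : XX x = 1 := by
  unfold XX
  rw [T_one (by linarith), T_one (by linarith), one_mul]

/-- telescoping -/
theorem tel (F : ℤ → ℝ) (a : ℤ) (n : ℕ) :
    ∑ j ∈ Finset.Ico a (a + n), (F j - F (j + 1)) = F a - F (a + n) := by
  induction n with
  | zero => simp
  | succ n ih =>
    have h : Finset.Ico a (a + (n + 1 : ℕ)) = insert (a + n : ℤ) (Finset.Ico a (a + n)) := by
      ext j
      simp only [Finset.mem_Ico, Finset.mem_insert]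
      push_cast
      omega
    rw [h, Finset.sum_insert (by simp), ih]
    push_cast
    rw [add_assoc]
    ring

theorem sum_psi {u : ℝ} {J : ℤ} (h : |u| ≤ J) : ∑ j ∈ Finset.Icc (-J) J, psi (u - j) = 1 := by
  rw [abs_le] at h
  have hJ : 0 ≤ J := by
    have : (0:ℝ) ≤ J := by linarith
    exact_mod_cast this
  have h1 : Finset.Icc (-J) J = Finset.Ico (-J) (-J + ((2 * J + 1).toNat : ℤ)) := by
    ext j
    simp only [Finset.mem_Icc, Finset.mem_Ico]
    omega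
  have h2 : ∀ j : ℤ, psi (u - j) = (fun j : ℤ => Real.smoothTransition (u - j + 1)) j -
      (fun j : ℤ => Real.smoothTransition (u - j + 1)) (j + 1) := by
    intro j
    simp only [psi]
    congr 2
    push_cast
    ring
  rw [h1]
  simp only [h2]
  have h3 := tel (fun j : ℤ => Real.smoothTransition (u - j + 1)) (-J) (2 * J + 1).toNat
  rw [h3]
  have h4 : (-J + ((2 * J + 1).toNat : ℤ)) = J + 1 := by omega
  rw [h4, T_one (by push_cast; linarith), T_zero (by push_cast; linarith), sub_zero]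

/-! ### CUT -/

theorem sc_ne {μ s₀ : ℝ} {ζ : ℝ × ℝ} (h : sc μ s₀ ζ ≠ 0) :
    XX ζ.1 ≠ 0 ∧ psi ((ζ.2 - s₀ * ζ.1) / (μ * ζ.1)) ≠ 0 := by
  unfold sc at h
  rw [Complex.ofReal_ne_zero] at h
  exact ⟨left_ne_zero_of_mul h, right_ne_zero_of_mul h⟩

theorem sc_supp {μ s₀ : ℝ} (hμ : 0 < μ) {ζ : ℝ × ℝ} (h : sc μ s₀ ζ ≠ 0) :
    1 / 8 ≤ ζ.1 ∧ ζ.1 ≤ 4 ∧ |ζ.2 - s₀ * ζ.1| ≤ μ * ζ.1 := by
  obtain ⟨h1, h2⟩ := sc_ne h
  obtain ⟨h3, h4⟩ := XX_ne h1
  have h5 := psi_ne h2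
  have h6 : 0 < μ * ζ.1 := by positivity
  rw [abs_div, abs_of_pos h6, div_lt_one h6] at h5
  exact ⟨h3.le, h4.le, h5.le⟩

theorem sc_TC {μ s₀ : ℝ} (hμ : 0 < μ) : TC (sc μ s₀) := by
  constructor
  · rw [contDiff_iff_contDiffAt]
    intro ζ
    by_cases hζ : 0 < ζ.1
    · have h1 : ContDiffAt ℝ (⊤ : ℕ∞) (fun ζ : ℝ × ℝ => (ζ.2 - s₀ * ζ.1) / (μ * ζ.1)) ζ := by
        refine ContDiffAt.div ?_ ?_ (by positivity)
        · exact (contDiff_snd.sub (contDiff_const.mul contDiff_fst)).contDiffAt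
        · exact (contDiff_const.mul contDiff_fst).contDiffAt
      have h2 : ContDiffAt ℝ (⊤ : ℕ∞)
          (fun ζ : ℝ × ℝ => XX ζ.1 * psi ((ζ.2 - s₀ * ζ.1) / (μ * ζ.1))) ζ :=
        ((XX_smooth.comp contDiff_fst).contDiffAt).mul (psi_smooth.contDiffAt.comp ζ h1)
      exact Complex.ofRealCLM.contDiff.contDiffAt.comp ζ h2
    · have hopen : IsOpen {ζ : ℝ × ℝ | ζ.1 < 1 / 8} := isOpen_lt continuous_fst continuous_const
      have heq : sc μ s₀ =ᶠ[nhds ζ] fun _ => 0 := by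
        filter_upwards [hopen.mem_nhds (show ζ.1 < 1 / 8 by linarith)] with w hw
        by_contra hcon
        have h1 := (sc_supp hμ hcon).1
        have h2 : w.1 < 1 / 8 := hw
        linarith
      exact contDiffAt_const.congr_of_eventuallyEq heq
  · refine HasCompactSupport.of_support_subset_isCompact
      (isCompact_closedBall 0 (4 + (|s₀| + μ) * 4)) ?_
    intro ζ hζ
    rw [Function.mem_support] at hζ
    obtain ⟨h1, h2, h3⟩ := sc_supp hμ hζ
    rw [mem_closedBall_zero_iff, Prod.norm_def, Real.norm_eq_abs, Real.norm_eq_abs]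
    have h4 : 0 ≤ |s₀| := abs_nonneg _
    have h5 : |ζ.2| ≤ μ * ζ.1 + |s₀| * ζ.1 := by
      have h6 := abs_sub_abs_le_abs_sub ζ.2 (s₀ * ζ.1)
      rw [abs_mul, abs_of_pos (by linarith : 0 < ζ.1)] at h6
      linarith
    refine max_le ?_ ?_
    · rw [abs_of_pos (by linarith)]
      nlinarith
    · nlinarith

theorem sc_norm (μ s₀ : ℝ) (ζ : ℝ × ℝ) : ‖sc μ s₀ ζ‖ ≤ 1 := by
  unfold sc
  rw [Complex.norm_real, Real.norm_eq_abs, abs_mul, abs_of_nonneg (XX_nonneg _),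
    abs_of_nonneg (psi_nonneg _)]
  exact mul_le_one₀ (XX_le_one _) (psi_nonneg _) (psi_le_one _)

theorem prod_TC {f g : ℝ → ℝ} (hf : ContDiff ℝ (⊤ : ℕ∞) f) (hg : ContDiff ℝ (⊤ : ℕ∞) g) {A : ℝ}
    (hf' : ∀ x, f x ≠ 0 → |x| ≤ A) (hg' : ∀ x, g x ≠ 0 → |x| ≤ A) :
    TC (fun ζ : ℝ × ℝ => ((f ζ.1 * g ζ.2 : ℝ) : ℂ)) := by
  constructor
  · exact Complex.ofRealCLM.contDiff.comp ((hf.comp contDiff_fst).mul (hg.comp contDiff_snd))
  · refine HasCompactSupport.of_support_subset_isCompact (isCompact_closedBall 0 A) ?_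
    intro ζ hζ
    rw [Function.mem_support, Complex.ofReal_ne_zero] at hζ
    rw [mem_closedBall_zero_iff, Prod.norm_def, Real.norm_eq_abs, Real.norm_eq_abs]
    exact max_le (hf' _ (left_ne_zero_of_mul hζ)) (hg' _ (right_ne_zero_of_mul hζ))

theorem aux_supp {l : ℝ} (hl : 0 < l) {c : ℤ} {D : ℝ} {f : ℝ → ℝ} (hf : ∀ x, f x ≠ 0 → |x| < D)
    {x : ℝ} (h : f (l * x - c) ≠ 0) {A : ℝ} (hA : (|(c:ℝ)| + D) / l ≤ A) : |x| ≤ A := by
  have h1 := hf _ h
  have h2 : |l * x| ≤ |(c:ℝ)| + D := by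
    have := abs_sub_abs_le_abs_sub (l * x) (c:ℝ)
    linarith
  rw [abs_mul, abs_of_pos hl] at h2
  refine le_trans ?_ hA
  rw [le_div_iff₀ hl]
  linarith

theorem smooth_shift {f : ℝ → ℝ} (hf : ContDiff ℝ (⊤ : ℕ∞) f) (l : ℝ) (c : ℤ) :
    ContDiff ℝ (⊤ : ℕ∞) (fun x => f (l * x - c)) :=
  hf.comp ((contDiff_const.mul contDiff_id).sub contDiff_const)

/-- module CUT -/
theorem cut : T_CUT := by
  refine ⟨?_, ?_, ?_, ?_, ?_⟩
  · intro μ s₀ hμ
    exact ⟨sc_TC hμ, sc_norm μ s₀, fun ζ h => sc_supp hμ h⟩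
  · intro μ J hμ hJ ζ hζ
    obtain ⟨h1, h2, h3⟩ := hζ
    have hζ1 : 0 < ζ.1 := by linarith
    have h4 : ∀ j : ℤ, sc μ (j * μ) ζ = ((psi (ζ.2 / (μ * ζ.1) - j) : ℝ) : ℂ) := by
      intro j
      unfold sc
      rw [XX_one h1 h2, one_mul]
      congr 2
      field_simp
    simp only [h4]
    rw [← Complex.ofReal_sum, sum_psi, Complex.ofReal_one]
    rw [abs_div, abs_of_pos (by positivity : 0 < μ * ζ.1), div_le_iff₀ (by positivity)]
    have h5 : 1 ≤ (J:ℝ) * μ := by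
      have h6 : 1 / μ ≤ J := by linarith
      rwa [div_le_iff₀ hμ] at h6
    calc |ζ.2| ≤ ζ.1 := h3
      _ ≤ (J * μ) * ζ.1 := by nlinarith
      _ = J * (μ * ζ.1) := by ring
  · intro l c hl
    have hA1 : ∀ D : ℝ, (|(c.1:ℝ)| + D) / l ≤
        max ((|(c.1:ℝ)| + D) / l) ((|(c.2:ℝ)| + D) / l) := fun D => le_max_left _ _
    have hA2 : ∀ D : ℝ, (|(c.2:ℝ)| + D) / l ≤
        max ((|(c.1:ℝ)| + D) / l) ((|(c.2:ℝ)| + D) / l) := fun D => le_max_right _ _
    refine ⟨?_, ?_, ?_, ?_, ?_, ?_⟩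
    · exact prod_TC (f := fun x => psi (l * x - c.1)) (g := fun x => psi (l * x - c.2))
        (smooth_shift psi_smooth _ _) (smooth_shift psi_smooth _ _)
        (fun x h => aux_supp hl (fun x => psi_ne) h (hA1 1))
        (fun x h => aux_supp hl (fun x => psi_ne) h (hA2 1))
    · exact prod_TC (f := fun x => psi2 (l * x - c.1)) (g := fun x => psi2 (l * x - c.2))
        (smooth_shift psi2_smooth _ _) (smooth_shift psi2_smooth _ _)
        (fun x h => aux_supp hl (fun x => psi2_ne) h (hA1 2))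
        (fun x h => aux_supp hl (fun x => psi2_ne) h (hA2 2))
    · intro ζ
      unfold cp
      rw [Complex.norm_real, Real.norm_eq_abs, abs_mul, abs_of_nonneg (psi_nonneg _),
        abs_of_nonneg (psi_nonneg _)]
      exact mul_le_one₀ (psi_le_one _) (psi_nonneg _) (psi_le_one _)
    · intro ζ
      by_cases h : cp l c ζ = 0
      · rw [h, mul_zero]
      · have h1 : psi (l * ζ.1 - c.1) * psi (l * ζ.2 - c.2) ≠ 0 := by
          unfold cp at h
          exact Complex.ofReal_ne_zero.mp h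
        have h2 : cpf l c ζ = 1 := by
          unfold cpf
          rw [psi2_one (psi_ne (left_ne_zero_of_mul h1)).le,
            psi2_one (psi_ne (right_ne_zero_of_mul h1)).le]
          simp
        rw [h2, one_mul]
    · intro ζ h
      have h1 : psi (l * ζ.1 - c.1) * psi (l * ζ.2 - c.2) ≠ 0 := by
        unfold cp at h
        exact Complex.ofReal_ne_zero.mp h
      exact ⟨(psi_ne (left_ne_zero_of_mul h1)).le, (psi_ne (right_ne_zero_of_mul h1)).le⟩
    · intro ζ h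
      have h1 : psi2 (l * ζ.1 - c.1) * psi2 (l * ζ.2 - c.2) ≠ 0 := by
        unfold cpf at h
        exact Complex.ofReal_ne_zero.mp h
      exact ⟨(psi2_ne (left_ne_zero_of_mul h1)).le, (psi2_ne (right_ne_zero_of_mul h1)).le⟩
  · intro l hl ζ hζ
    obtain ⟨h1, h2, h3⟩ := hζ
    have hl0 : 0 < l := by linarith
    have hM : (3 * l : ℝ) ≤ (⌈3 * l⌉ : ℤ) := Int.le_ceil _
    have hfil : ∑ c ∈ capsQ l, cp l c ζ =
        ∑ c ∈ Finset.Icc (-⌈3 * l⌉) ⌈3 * l⌉ ×ˢ Finset.Icc (-⌈3 * l⌉) ⌈3 * l⌉, cp l c ζ := by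
      unfold capsQ
      refine Finset.sum_filter_of_ne fun c _ hc => ?_
      have h4 : psi (l * ζ.1 - c.1) * psi (l * ζ.2 - c.2) ≠ 0 := by
        unfold cp at hc
        exact Complex.ofReal_ne_zero.mp hc
      have h5 := abs_lt.mp (psi_ne (left_ne_zero_of_mul h4))
      have h6 := abs_lt.mp (psi_ne (right_ne_zero_of_mul h4))
      have h7 := abs_le.mp h3
      refine ⟨by nlinarith [h5.1, h5.2], by nlinarith [h5.1, h5.2], ?_⟩
      rw [abs_le]
      constructor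
      · nlinarith [h5.1, h5.2, h6.1, h6.2, h7.1, h7.2]
      · nlinarith [h5.1, h5.2, h6.1, h6.2, h7.1, h7.2]
    rw [hfil, Finset.sum_product]
    have h4 : ∀ c1 c2 : ℤ, cp l (c1, c2) ζ =
        ((psi (l * ζ.1 - c1) : ℝ) : ℂ) * ((psi (l * ζ.2 - c2) : ℝ) : ℂ) := by
      intro c1 c2
      unfold cp
      push_cast
      ring
    simp only [h4]
    have e2 : ∑ c2 ∈ Finset.Icc (-⌈3 * l⌉) ⌈3 * l⌉, ((psi (l * ζ.2 - c2) : ℝ) : ℂ) = 1 := by
      rw [← Complex.ofReal_sum, sum_psi, Complex.ofReal_one]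
      rw [abs_mul, abs_of_pos hl0]
      have : |ζ.2| ≤ 2 := by linarith
      nlinarith
    have e1 : ∑ c1 ∈ Finset.Icc (-⌈3 * l⌉) ⌈3 * l⌉, ((psi (l * ζ.1 - c1) : ℝ) : ℂ) = 1 := by
      rw [← Complex.ofReal_sum, sum_psi, Complex.ofReal_one]
      rw [abs_mul, abs_of_pos hl0, abs_of_pos (by linarith : 0 < ζ.1)]
      nlinarith
    simp only [← Finset.mul_sum, e2, mul_one, e1]
  · intro l hl
    have hl0 : 0 < l := by linarith
    have hM : ((⌈3 * l⌉ : ℤ) : ℝ) < 3 * l + 1 := Int.ceil_lt_add_one _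
    have hM0 : 0 ≤ ⌈3 * l⌉ := Int.ceil_nonneg (by positivity)
    have h1 : (capsQ l).card ≤ (Finset.Icc (-⌈3 * l⌉) ⌈3 * l⌉ ×ˢ
        Finset.Icc (-⌈3 * l⌉) ⌈3 * l⌉).card := Finset.card_filter_le _ _
    rw [Finset.card_product, Int.card_Icc] at h1
    have h2 : (((⌈3 * l⌉ + 1 - -⌈3 * l⌉).toNat : ℕ) : ℝ) ≤ 6 * l + 3 := by
      have h3 : (((⌈3 * l⌉ + 1 - -⌈3 * l⌉).toNat : ℕ) : ℤ) = 2 * ⌈3 * l⌉ + 1 := by omega
      have h4 : (((⌈3 * l⌉ + 1 - -⌈3 * l⌉).toNat : ℕ) : ℝ) = 2 * (⌈3 * l⌉ : ℝ) + 1 := by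
        exact_mod_cast h3
      rw [h4]
      linarith
    have h3 : ((capsQ l).card : ℝ) ≤ (6 * l + 3) * (6 * l + 3) := by
      calc ((capsQ l).card : ℝ) ≤ (((⌈3 * l⌉ + 1 - -⌈3 * l⌉).toNat *
            (⌈3 * l⌉ + 1 - -⌈3 * l⌉).toNat : ℕ) : ℝ) := by exact_mod_cast h1
        _ = (((⌈3 * l⌉ + 1 - -⌈3 * l⌉).toNat : ℕ) : ℝ) *
            (((⌈3 * l⌉ + 1 - -⌈3 * l⌉).toNat : ℕ) : ℝ) := by push_cast; ring
        _ ≤ _ := mul_le_mul h2 h2 (by positivity) (by positivity)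
    nlinarith

end Pool.Agent.H14.LS
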