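import Pool.Agent.H14.LS.Highf

/-!
Module FIN: summation of the dyadic blocks.
-/

set_option autoImplicit false

namespace Pool.Agent.H14.LS

open MeasureTheory Set FourierTransform Filter
open scoped ENNReal NNReal SchwartzMap Topology
open Pool.Agent.H83.LS

/-- geometric sums in `ℝ≥0∞` -/
theorem geo_finite {ε : ℝ} (hε : 0 < ε) :
    ∑' j : ℕ, ENNReal.ofReal ((2 : ℝ) ^ (-((j : ℝ) * ε))) ≠ ⊤ := by
  have h1 : ∀ j : ℕ, ENNReal.ofReal ((2 : ℝ) ^ (-((j : ℝ) * ε))) =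
      (ENNReal.ofReal ((2 : ℝ) ^ (-ε))) ^ j := by
    intro j
    rw [← ENNReal.ofReal_pow (by positivity), ← Real.rpow_natCast, ← Real.rpow_mul (by norm_num)]
    congr 2; ring
  simp_rw [h1]
  rw [ENNReal.tsum_geometric]
  apply ENNReal.inv_ne_top.mpr
  rw [Ne, tsub_eq_zero_iff_le, not_le, ENNReal.ofReal_lt_one]
  exact Real.rpow_lt_one_of_one_lt_of_neg (by norm_num) (by linarith)

/-- weighted summation -/
theorem tsum_rpow_le {p ε : ℝ} (hp : 1 ≤ p) (b : ℕ → ℝ≥0∞) :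
    (∑' j, b j) ^ p ≤ (∑' j : ℕ, ENNReal.ofReal ((2 : ℝ) ^ (-((j : ℝ) * ε)))) ^ p *
      ∑' j : ℕ, ENNReal.ofReal ((2 : ℝ) ^ ((j : ℝ) * ε * p)) * b j ^ p := by
  have hp0 : 0 < p := by linarith
  set T : ℝ≥0∞ := ∑' j : ℕ, ENNReal.ofReal ((2 : ℝ) ^ ((j : ℝ) * ε * p)) * b j ^ p with hT
  have h1 : ∀ j : ℕ, b j ≤ ENNReal.ofReal ((2 : ℝ) ^ (-((j : ℝ) * ε))) * T ^ (1 / p) := by
    intro j
    have h2 : ENNReal.ofReal ((2 : ℝ) ^ ((j : ℝ) * ε * p)) * b j ^ p ≤ T := ENNReal.le_tsum j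
    have h3 := ENNReal.rpow_le_rpow h2 (by positivity : 0 ≤ 1 / p)
    rw [ENNReal.mul_rpow_of_nonneg _ _ (by positivity), ENNReal.ofReal_rpow_of_pos (by positivity),
      ← Real.rpow_mul (by norm_num), ← ENNReal.rpow_mul, mul_one_div_cancel hp0.ne',
      ENNReal.rpow_one, mul_assoc, mul_one_div_cancel hp0.ne', mul_one] at h3
    calc b j = ENNReal.ofReal ((2 : ℝ) ^ (-((j : ℝ) * ε))) *
          (ENNReal.ofReal ((2 : ℝ) ^ ((j : ℝ) * ε)) * b j) := by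
          rw [← mul_assoc, ← ENNReal.ofReal_mul (by positivity), ← Real.rpow_add (by norm_num)]
          simp
      _ ≤ _ := by gcongr
  calc (∑' j, b j) ^ p ≤ (∑' j : ℕ, ENNReal.ofReal ((2 : ℝ) ^ (-((j : ℝ) * ε))) *
        T ^ (1 / p)) ^ p := by
        apply ENNReal.rpow_le_rpow _ hp0.le
        exact ENNReal.tsum_le_tsum h1
    _ = _ := by
        rw [ENNReal.tsum_mul_right, ENNReal.mul_rpow_of_nonneg _ _ hp0.le, ← ENNReal.rpow_mul,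
          one_div_mul_cancel hp0.ne', ENNReal.rpow_one]

/-- summation of dyadic blocks in `L^p` -/
theorem series_bound {d : ℕ} {p δ : ℝ} (hp : 1 ≤ p) (hδ : 0 < δ) :
    ∃ S : ℝ≥0, ∀ (a : ℕ → ℝ → EE d → ℂ) (A : ℝ → EE d → ℂ) (K G : ℝ≥0∞),
      (∀ j, Measurable fun q : ℝ × EE d => a j q.1 q.2) →
      (∀ t x, ‖A t x‖ₑ ≤ ∑' j, ‖a j t x‖ₑ) →
      (∀ j : ℕ, ∫⁻ t in Icc (1 : ℝ) 2, ∫⁻ x, ‖a j t x‖ₑ ^ p ≤
        K * ENNReal.ofReal ((2 : ℝ) ^ (-((j : ℝ) * δ))) * G) →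
      ∫⁻ t in Icc (1 : ℝ) 2, ∫⁻ x, ‖A t x‖ₑ ^ p ≤ S * (K * G) := by
  have hp0 : 0 < p := by linarith
  set ε : ℝ := δ / (2 * p) with hε
  have hε0 : 0 < ε := by positivity
  have hf1 := geo_finite hε0
  have hf2 := geo_finite (ε := δ / 2) (by positivity)
  refine ⟨(∑' j : ℕ, ENNReal.ofReal ((2 : ℝ) ^ (-((j : ℝ) * ε)))).toNNReal ^ p *
    (∑' j : ℕ, ENNReal.ofReal ((2 : ℝ) ^ (-((j : ℝ) * (δ / 2))))).toNNReal, ?_⟩
  intro a A K G ha hA hb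
  rw [ENNReal.coe_mul, ENNReal.coe_rpow_of_nonneg _ hp0.le, ENNReal.coe_toNNReal hf1,
    ENNReal.coe_toNNReal hf2]
  set S1 : ℝ≥0∞ := ∑' j : ℕ, ENNReal.ofReal ((2 : ℝ) ^ (-((j : ℝ) * ε))) with hS1
  set w : ℕ → ℝ≥0∞ := fun j => ENNReal.ofReal ((2 : ℝ) ^ ((j : ℝ) * ε * p)) with hw
  have hme : ∀ j, Measurable fun q : ℝ × EE d => w j * ‖a j q.1 q.2‖ₑ ^ p := fun j =>
    ((ha j).enorm.pow_const p).const_mul _
  calc ∫⁻ t in Icc (1 : ℝ) 2, ∫⁻ x, ‖A t x‖ₑ ^ p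
      ≤ ∫⁻ t in Icc (1 : ℝ) 2, ∫⁻ x, S1 ^ p * ∑' j, w j * ‖a j t x‖ₑ ^ p := by
        refine lintegral_mono fun t => lintegral_mono fun x => ?_
        exact le_trans (ENNReal.rpow_le_rpow (hA t x) hp0.le) (tsum_rpow_le hp _)
    _ = ∫⁻ t in Icc (1 : ℝ) 2, S1 ^ p * ∑' j, ∫⁻ x, w j * ‖a j t x‖ₑ ^ p := by
        refine lintegral_congr fun t => ?_
        rw [lintegral_const_mul' _ _ (ENNReal.rpow_ne_top_of_nonneg hp0.le hf1), lintegral_tsum]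
        intro j
        exact ((hme j).comp (measurable_prodMk_left (x := t))).aemeasurable
    _ = S1 ^ p * ∑' j, ∫⁻ t in Icc (1 : ℝ) 2, ∫⁻ x, w j * ‖a j t x‖ₑ ^ p := by
        rw [lintegral_const_mul' _ _ (ENNReal.rpow_ne_top_of_nonneg hp0.le hf1), lintegral_tsum]
        intro j
        exact (hme j).lintegral_prod_right'.aemeasurable
    _ ≤ S1 ^ p * ∑' j : ℕ, ENNReal.ofReal ((2 : ℝ) ^ (-((j : ℝ) * (δ / 2)))) * (K * G) := by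
        refine mul_le_mul_right (ENNReal.tsum_le_tsum fun j => ?_) _
        have hwj : w j ≠ ⊤ := ENNReal.ofReal_ne_top
        have hj : ∫⁻ t in Icc (1 : ℝ) 2, ∫⁻ x, w j * ‖a j t x‖ₑ ^ p =
            w j * ∫⁻ t in Icc (1 : ℝ) 2, ∫⁻ x, ‖a j t x‖ₑ ^ p := by
          simp_rw [lintegral_const_mul' _ _ hwj]
        rw [hj]
        refine le_trans (mul_le_mul_right (hb j) _) (le_of_eq ?_)
        have h1 : (2 : ℝ) ^ (-((j : ℝ) * (δ / 2))) = (2 : ℝ) ^ ((j : ℝ) * ε * p) *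
            (2 : ℝ) ^ (-((j : ℝ) * δ)) := by
          rw [← Real.rpow_add (by norm_num), hε]
          congr 1
          field_simp
          ring
        rw [h1, ENNReal.ofReal_mul (by positivity), hw]
        ring
    _ = _ := by
        rw [ENNReal.tsum_mul_right]; ring

/-- the partial sums of the Littlewood-Paley decomposition -/
theorem lp_sum (s : ℝ) (J : ℕ) : eta0 s + ∑ j ∈ Finset.range J, chi (s / 2 ^ (j + 1)) =
    eta0 (s / 2 ^ J) := by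
  induction J with
  | zero => simp
  | succ J ih =>
    rw [Finset.sum_range_succ, ← add_assoc, ih]
    unfold chi
    have : 2 * (s / 2 ^ (J + 1)) = s / 2 ^ J := by
      rw [pow_succ]; field_simp
    rw [this]; ring

/-- bounded symbols -/
theorem sym_int' {d : ℕ} {m : EE d → ℂ} (hm : Measurable m) {B : ℝ} (hb : ∀ ξ, ‖m ξ‖ ≤ B)
    (v : 𝓢(EE d, ℂ)) (x : EE d) :
    Integrable fun ξ => e (inner ℝ x ξ) * (m ξ * 𝓕 (v : EE d → ℂ) ξ) := by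
  refine ((fourier_int v).norm.const_mul B).mono'
    ((measurable_char x).mul (hm.mul (fourier_meas v))).aestronglyMeasurable
    (Filter.Eventually.of_forall fun ξ => ?_)
  rw [norm_mul, norm_e, one_mul, norm_mul]
  exact mul_le_mul_of_nonneg_right (hb ξ) (norm_nonneg _)

theorem lp_bound {d : ℕ} {m : EE d → ℂ} (hm : Measurable m) {B : ℝ} (hb : ∀ ξ, ‖m ξ‖ ≤ B)
    (u : 𝓢(EE d, ℂ)) (x : EE d) :
    ‖MM m u x‖ₑ ≤ ‖MM (fun ξ => m ξ * ((eta0 ‖ξ‖ : ℝ) : ℂ)) u x‖ₑ +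
      ∑' j : ℕ, ‖MM (fun ξ => m ξ * ((chi (‖ξ‖ / 2 ^ (j + 1)) : ℝ) : ℂ)) u x‖ₑ := by
  have hB : 0 ≤ B := le_trans (norm_nonneg _) (hb 0)
  have hme : Measurable fun ξ : EE d => ((eta0 ‖ξ‖ : ℝ) : ℂ) :=
    Complex.measurable_ofReal.comp (eta0_smooth.continuous.measurable.comp measurable_norm)
  have hme2 : ∀ J : ℕ, Measurable fun ξ : EE d => ((eta0 (‖ξ‖ / 2 ^ J) : ℝ) : ℂ) := fun J =>
    Complex.measurable_ofReal.comp (eta0_smooth.continuous.measurable.comp (by fun_prop))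
  have hmc : ∀ J : ℕ, Measurable fun ξ : EE d => ((chi (‖ξ‖ / 2 ^ (J + 1)) : ℝ) : ℂ) := fun J =>
    Complex.measurable_ofReal.comp (chi_smooth.continuous.measurable.comp (by fun_prop))
  have hbe : ∀ (s : ℝ), ‖((eta0 s : ℝ) : ℂ)‖ ≤ 1 := by
    intro s
    rw [Complex.norm_real, Real.norm_of_nonneg (eta0_nonneg _)]
    exact eta0_le_one _
  have hbc : ∀ (s : ℝ), ‖((chi s : ℝ) : ℂ)‖ ≤ 1 := by
    intro s
    rw [Complex.norm_real, Real.norm_eq_abs]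
    exact chi_abs_le _
  have hI0 : Integrable fun ξ => e (inner ℝ x ξ) *
      (m ξ * ((eta0 ‖ξ‖ : ℝ) : ℂ) * 𝓕 (u : EE d → ℂ) ξ) := sym_int' (hm.mul hme) (B := B) (fun ξ => by
    simp only [Pi.mul_apply, norm_mul]
    exact le_trans (mul_le_mul (hb ξ) (hbe _) (norm_nonneg _) hB) (mul_one B).le) u x
  have hIc : ∀ J : ℕ, Integrable fun ξ => e (inner ℝ x ξ) *
      (m ξ * ((chi (‖ξ‖ / 2 ^ (J + 1)) : ℝ) : ℂ) * 𝓕 (u : EE d → ℂ) ξ) := fun J =>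
    sym_int' (hm.mul (hmc J)) (B := B) (fun ξ => by
      simp only [Pi.mul_apply, norm_mul]
      exact le_trans (mul_le_mul (hb ξ) (hbc _) (norm_nonneg _) hB) (mul_one B).le) u x
  -- partial sums
  have hpart : ∀ J : ℕ, MM (fun ξ => m ξ * ((eta0 (‖ξ‖ / 2 ^ J) : ℝ) : ℂ)) u x =
      MM (fun ξ => m ξ * ((eta0 ‖ξ‖ : ℝ) : ℂ)) u x +
      ∑ j ∈ Finset.range J, MM (fun ξ => m ξ * ((chi (‖ξ‖ / 2 ^ (j + 1)) : ℝ) : ℂ)) u x := by
    intro J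
    unfold MM
    beta_reduce
    rw [← integral_finsetSum _ (fun j _ => hIc j), ← integral_add hI0
      (integrable_finsetSum _ (fun j _ => hIc j))]
    congr 1; ext ξ
    rw [← lp_sum ‖ξ‖ J, ← Finset.mul_sum, ← Finset.sum_mul, ← Finset.mul_sum]
    push_cast
    ring
  have hlim : Tendsto (fun J : ℕ => MM (fun ξ => m ξ * ((eta0 (‖ξ‖ / 2 ^ J) : ℝ) : ℂ)) u x)
      atTop (𝓝 (MM m u x)) := by
    unfold MM
    apply tendsto_integral_of_dominated_convergence (fun ξ => B * ‖𝓕 (u : EE d → ℂ) ξ‖)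
    · intro J
      exact ((measurable_char x).mul ((hm.mul (hme2 J)).mul (fourier_meas u))).aestronglyMeasurable
    · exact (fourier_int u).norm.const_mul B
    · intro J
      refine Eventually.of_forall fun ξ => ?_
      rw [norm_mul, norm_e, one_mul, norm_mul, norm_mul]
      gcongr
      exact le_trans (mul_le_mul (hb ξ) (hbe _) (norm_nonneg _) hB) (mul_one B).le
    · refine Eventually.of_forall fun ξ => ?_
      apply tendsto_const_nhds.congr'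
      obtain ⟨N, hN⟩ := pow_unbounded_of_one_lt ‖ξ‖ (by norm_num : (1 : ℝ) < 2)
      filter_upwards [eventually_ge_atTop N] with J hJ
      have h1 : ‖ξ‖ / 2 ^ J ≤ 1 := by
        rw [div_le_one (by positivity)]
        exact le_trans hN.le (pow_le_pow_right₀ (by norm_num) hJ)
      rw [eta0_one h1]; simp
  have hlim2 := (continuous_enorm.tendsto _).comp hlim
  refine le_of_tendsto hlim2 (Eventually.of_forall fun J => ?_)
  simp only [Function.comp]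
  rw [hpart J]
  refine le_trans (enorm_add_le _ _) ?_
  gcongr
  exact le_trans (enorm_sum_le _ _) (ENNReal.sum_le_tsum _)

/-- the low frequency part -/
theorem low_bound (hYG : T_YG) {d : ℕ} {p : ℝ} (hp : 1 ≤ p) (r : ℝ) {L : EE d → ℝ}
    (hL : Measurable L) {B : ℝ} (hB : ∀ ξ, |L ξ| ≤ B) (K : ℝ≥0)
    (hK : ∫⁻ x : EE d, ‖MK (fun ξ : EE d => ((eta0 ‖ξ‖ * L ξ *
      (1 + 4 * Real.pi ^ 2 * ‖ξ‖ ^ 2) ^ (-r / 2) : ℝ) : ℂ)) x‖ₑ ≤ K) (u : 𝓢(EE d, ℂ)) :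
    ∫⁻ x, ‖MM (fun ξ => ((L ξ : ℝ) : ℂ) * ((eta0 ‖ξ‖ : ℝ) : ℂ)) u x‖ₑ ^ p ≤
      (K : ℝ≥0∞) ^ p * ∫⁻ x, ‖besS r u x‖ₑ ^ p := by
  obtain ⟨g, hg1, hg2⟩ := besS_schwartz r u
  have hcont : Continuous fun ξ : EE d => eta0 ‖ξ‖ * (1 + 4 * Real.pi ^ 2 * ‖ξ‖ ^ 2) ^ (-r / 2) := by
    apply (eta0_smooth.continuous.comp continuous_norm).mul
    apply Continuous.rpow_const (by fun_prop)
    intro ξ; left; positivity
  have hsupp : HasCompactSupport fun ξ : EE d => eta0 ‖ξ‖ *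
      (1 + 4 * Real.pi ^ 2 * ‖ξ‖ ^ 2) ^ (-r / 2) := by
    refine HasCompactSupport.of_support_subset_isCompact (isCompact_closedBall 0 2) ?_
    intro ξ hξ
    rw [Function.mem_support] at hξ
    rw [mem_closedBall_zero_iff]
    by_contra h
    push Not at h
    apply hξ
    rw [eta0_zero h.le, zero_mul]
  have hint0 : Integrable fun ξ : EE d => eta0 ‖ξ‖ * (1 + 4 * Real.pi ^ 2 * ‖ξ‖ ^ 2) ^ (-r / 2) :=
    hcont.integrable_of_hasCompactSupport hsupp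
  have hint1 : Integrable fun ξ : EE d => eta0 ‖ξ‖ * L ξ *
      (1 + 4 * Real.pi ^ 2 * ‖ξ‖ ^ 2) ^ (-r / 2) := by
    have h1 := hint0.bdd_mul (c := B) hL.aestronglyMeasurable
      (Eventually.of_forall fun ξ => by rw [Real.norm_eq_abs]; exact hB ξ)
    refine h1.congr (Eventually.of_forall fun ξ => ?_)
    simp only
    ring
  have hint : Integrable fun ξ : EE d => ((eta0 ‖ξ‖ * L ξ *
      (1 + 4 * Real.pi ^ 2 * ‖ξ‖ ^ 2) ^ (-r / 2) : ℝ) : ℂ) := hint1.ofReal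
  have hY := MM_young hYG hint g.integrable g.continuous.measurable hp
  have h2 : ∫⁻ x, ‖g x‖ₑ ^ p = ∫⁻ x, ‖besS r u x‖ₑ ^ p := by
    congr 1; ext x; rw [hg2]
  have h3 : ∀ x, MM (fun ξ => ((L ξ : ℝ) : ℂ) * ((eta0 ‖ξ‖ : ℝ) : ℂ)) u x =
      MM (fun ξ : EE d => ((eta0 ‖ξ‖ * L ξ *
      (1 + 4 * Real.pi ^ 2 * ‖ξ‖ ^ 2) ^ (-r / 2) : ℝ) : ℂ)) g x := by
    intro x
    unfold MM
    congr 1; ext ξ
    rw [hg1]
    unfold bs
    have hX : 0 < 1 + 4 * Real.pi ^ 2 * ‖ξ‖ ^ 2 := by positivity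
    have h4 : (1 + 4 * Real.pi ^ 2 * ‖ξ‖ ^ 2) ^ (-r / 2) *
        (1 + 4 * Real.pi ^ 2 * ‖ξ‖ ^ 2) ^ (r / 2) = 1 := by
      rw [← Real.rpow_add hX]
      have : -r / 2 + r / 2 = 0 := by ring
      rw [this, Real.rpow_zero]
    have h5 : (((1 + 4 * Real.pi ^ 2 * ‖ξ‖ ^ 2) ^ (-r / 2) : ℝ) : ℂ) *
        (((1 + 4 * Real.pi ^ 2 * ‖ξ‖ ^ 2) ^ (r / 2) : ℝ) : ℂ) = 1 := by
      exact_mod_cast congrArg Complex.ofReal h4
    beta_reduce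
    rw [Complex.ofReal_mul (eta0 ‖ξ‖ * L ξ), Complex.ofReal_mul (eta0 ‖ξ‖)]
    generalize (((1 + 4 * Real.pi ^ 2 * ‖ξ‖ ^ 2) ^ (-r / 2) : ℝ) : ℂ) = X at h5 ⊢
    generalize (((1 + 4 * Real.pi ^ 2 * ‖ξ‖ ^ 2) ^ (r / 2) : ℝ) : ℂ) = Y at h5 ⊢
    linear_combination (-(e (inner ℝ x ξ)) * (L ξ : ℂ) * (eta0 ‖ξ‖ : ℂ) *
      𝓕 (u : EE d → ℂ) ξ) * h5
  simp_rw [h3]
  refine le_trans hY ?_
  rw [h2]
  gcongr

/-- one of the two propagators -/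
theorem prop_bound (hYG : T_YG) {d : ℕ} {p δ : ℝ} (hp : 1 ≤ p) (hδ : 0 < δ) (r : ℝ)
    (K₀ C : ℝ≥0) {L : ℝ → EE d → ℝ} (hL : Measurable fun q : ℝ × EE d => L q.1 q.2)
    (hB : ∀ t : ℝ, ∃ B, ∀ ξ, |L t ξ| ≤ B)
    (hlow : ∀ t ∈ Icc (0 : ℝ) 2, ∫⁻ x : EE d, ‖MK (fun ξ : EE d => ((eta0 ‖ξ‖ * L t ξ *
      (1 + 4 * Real.pi ^ 2 * ‖ξ‖ ^ 2) ^ (-r / 2) : ℝ) : ℂ)) x‖ₑ ≤ K₀) (P : 𝓢(EE d, ℂ) → Prop)
    (hhigh : ∀ (lam : ℝ) (u : 𝓢(EE d, ℂ)), 1 ≤ lam → P u →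
      ∫⁻ t in Icc (1 : ℝ) 2, ∫⁻ x, ‖MM (fun ξ => ((L t ξ * chi (‖ξ‖ / lam) : ℝ) : ℂ)) u x‖ₑ ^ p ≤
        C * ENNReal.ofReal (lam ^ (-δ)) * ∫⁻ x, ‖besS r u x‖ₑ ^ p) :
    ∃ D : ℝ≥0, ∀ u : 𝓢(EE d, ℂ), P u →
      ∫⁻ t in Icc (1 : ℝ) 2, ∫⁻ x, ‖MM (fun ξ => ((L t ξ : ℝ) : ℂ)) u x‖ₑ ^ p ≤
        D * ∫⁻ x, ‖besS r u x‖ₑ ^ p := by
  have hp0 : 0 ≤ p := by linarith
  obtain ⟨S, hS⟩ := series_bound (d := d) hp hδ
  refine ⟨S * (K₀ ^ p + C), ?_⟩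
  intro u hu
  have hLt : ∀ t, Measurable (L t) := fun t => hL.comp (measurable_prodMk_left (x := t))
  set a : ℕ → ℝ → EE d → ℂ := fun j t x => Nat.casesOn j
    (MM (fun ξ => ((L t ξ : ℝ) : ℂ) * ((eta0 ‖ξ‖ : ℝ) : ℂ)) u x)
    (fun i => MM (fun ξ => ((L t ξ : ℝ) : ℂ) * ((chi (‖ξ‖ / 2 ^ (i + 1)) : ℝ) : ℂ)) u x) with ha
  have ham : ∀ j, Measurable fun q : ℝ × EE d => a j q.1 q.2 := by
    intro j
    rcases j with _ | i
    · apply MM_meas (m := fun t ξ => ((L t ξ : ℝ) : ℂ) * ((eta0 ‖ξ‖ : ℝ) : ℂ)) _ (fourier_meas u)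
      apply Measurable.mul
      · exact Complex.measurable_ofReal.comp hL
      · exact Complex.measurable_ofReal.comp (eta0_smooth.continuous.measurable.comp
          (measurable_norm.comp measurable_snd))
    · apply MM_meas (m := fun t ξ => ((L t ξ : ℝ) : ℂ) * ((chi (‖ξ‖ / 2 ^ (i + 1)) : ℝ) : ℂ)) _
        (fourier_meas u)
      apply Measurable.mul
      · exact Complex.measurable_ofReal.comp hL
      · exact Complex.measurable_ofReal.comp (chi_smooth.continuous.measurable.comp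
          ((measurable_norm.comp measurable_snd).div_const _))
  have hfin := hS a (fun t x => MM (fun ξ => ((L t ξ : ℝ) : ℂ)) u x) ((K₀ : ℝ≥0∞) ^ p + C)
    (∫⁻ x, ‖besS r u x‖ₑ ^ p) ham ?_ ?_
  · refine le_trans hfin (le_of_eq ?_)
    rw [ENNReal.coe_mul, ENNReal.coe_add, ENNReal.coe_rpow_of_nonneg _ hp0, mul_assoc]
  · intro t x
    obtain ⟨B, hBt⟩ := hB t
    have h1 := lp_bound (m := fun ξ => ((L t ξ : ℝ) : ℂ)) (B := B)
      (Complex.measurable_ofReal.comp (hLt t))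
      (fun ξ => by rw [Complex.norm_real, Real.norm_eq_abs]; exact hBt ξ) u x
    rw [tsum_eq_zero_add' ENNReal.summable]
    exact h1
  · intro j
    rcases j with _ | i
    · calc ∫⁻ t in Icc (1 : ℝ) 2, ∫⁻ x, ‖a 0 t x‖ₑ ^ p
          ≤ ∫⁻ t in Icc (1 : ℝ) 2, (K₀ : ℝ≥0∞) ^ p * ∫⁻ x, ‖besS r u x‖ₑ ^ p := by
            apply setLIntegral_mono' measurableSet_Icc
            intro t ht
            obtain ⟨B, hBt⟩ := hB t
            exact low_bound hYG hp r (hLt t) hBt K₀ (hlow t ⟨by linarith [ht.1], ht.2⟩) u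
        _ = (K₀ : ℝ≥0∞) ^ p * ∫⁻ x, ‖besS r u x‖ₑ ^ p := by
            rw [setLIntegral_const, Real.volume_Icc]
            norm_num
        _ ≤ _ := by
            simp only [Nat.cast_zero, zero_mul, neg_zero, Real.rpow_zero, ENNReal.ofReal_one,
              mul_one]
            gcongr
            exact le_self_add
    · have h1 := hhigh ((2 : ℝ) ^ (i + 1)) u (one_le_pow₀ (by norm_num)) hu
      have h2 : ((2 : ℝ) ^ (i + 1)) ^ (-δ) = (2 : ℝ) ^ (-(((i + 1 : ℕ) : ℝ) * δ)) := by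
        rw [← Real.rpow_natCast, ← Real.rpow_mul (by norm_num)]
        congr 1; push_cast; ring
      rw [h2] at h1
      calc ∫⁻ t in Icc (1 : ℝ) 2, ∫⁻ x, ‖a (i + 1) t x‖ₑ ^ p
          = ∫⁻ t in Icc (1 : ℝ) 2, ∫⁻ x,
            ‖MM (fun ξ => ((L t ξ * chi (‖ξ‖ / 2 ^ (i + 1)) : ℝ) : ℂ)) u x‖ₑ ^ p := by
            refine lintegral_congr fun t => lintegral_congr fun x => ?_
            rw [ha]
            simp only [Complex.ofReal_mul]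
        _ ≤ _ := h1
        _ ≤ _ := by
            gcongr
            exact le_add_self

theorem eLp_eq {d : ℕ} (f : EE d → ℂ) {p : ℝ} (hp : 0 < p) :
    eLpNorm f (ENNReal.ofReal p) volume = (∫⁻ x, ‖f x‖ₑ ^ p) ^ (1 / p) := by
  rw [eLpNorm_eq_lintegral_rpow_enorm_toReal (by simp [hp]) ENNReal.ofReal_ne_top,
    ENNReal.toReal_ofReal hp.le]

theorem fin (hH : T_HIGHF) (hL : T_LOWF) (hYG : T_YG) : T_FIN := by
  intro n p σ hn hp hσ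
  have hn0 : (0 : ℝ) < n := by
    have : 0 < n := by omega
    exact_mod_cast this
  have hp2 : 2 < p := by
    have : 0 < 2 / (n : ℝ) := by positivity
    linarith
  have hp0 : 0 < p := by linarith
  have hp1 : 1 ≤ p := by linarith
  set δ : ℝ := (1 - p * σ) / 2 with hδ
  have hδ0 : 0 < δ := by
    have h1 : p * σ < 1 := by
      rw [lt_div_iff₀ hp0] at hσ
      linarith
    rw [hδ]; linarith
  set r₀ : ℝ := (n : ℝ) / 2 - n / p - σ with hr₀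
  set r₁ : ℝ := (n : ℝ) / 2 - n / p - 1 - σ with hr₁
  have hex0 : (n : ℝ) * (p / 2 - 1) - 1 - p * r₀ + δ = -δ := by
    rw [hr₀, hδ]; field_simp; ring
  have hex1 : (n : ℝ) * (p / 2 - 1) - 1 - p * (r₁ + 1) + δ = -δ := by
    rw [hr₁, hδ]; field_simp; ring
  obtain ⟨C₀, hC₀⟩ := hH n p r₀ δ hn hp hδ0
  obtain ⟨C₁, hC₁⟩ := hH n p r₁ δ hn hp hδ0
  obtain ⟨K₀, hK₀⟩ := hL (n + 1) r₀ (by omega)
  obtain ⟨K₁, hK₁⟩ := hL (n + 1) r₁ (by omega)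
  rw [hex0] at hC₀
  rw [hex1] at hC₁
  have hmc : Measurable fun q : ℝ × EE (n + 1) => Real.cos (2 * Real.pi * q.1 * ‖q.2‖) := by
    fun_prop
  have hms : Measurable fun q : ℝ × EE (n + 1) =>
      Real.sin (2 * Real.pi * q.1 * ‖q.2‖) / (2 * Real.pi * ‖q.2‖) := by
    fun_prop
  obtain ⟨D₀, hD₀⟩ := prop_bound hYG hp1 hδ0 r₀ K₀ C₀
    (L := fun t ξ => Real.cos (2 * Real.pi * t * ‖ξ‖)) hmc
    (fun t => ⟨1, fun ξ => Real.abs_cos_le_one _⟩) (fun t ht => (hK₀ t ht).1)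
    (fun u => Axial (u : EE (n + 1) → ℂ)) (fun lam u hl hu => (hC₀ lam u hl hu).1)
  obtain ⟨D₁, hD₁⟩ := prop_bound hYG hp1 hδ0 r₁ K₁ C₁
    (L := fun t ξ => Real.sin (2 * Real.pi * t * ‖ξ‖) / (2 * Real.pi * ‖ξ‖)) hms
    (fun t => ⟨|t|, fun ξ => by
      rcases eq_or_ne ‖ξ‖ 0 with h0 | h0
      · rw [h0]; simp
      · have h1 : 0 < ‖ξ‖ := lt_of_le_of_ne (norm_nonneg _) (Ne.symm h0)
        rw [abs_div, div_le_iff₀ (by positivity)]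
        refine le_trans Real.abs_sin_le_abs ?_
        rw [abs_mul, abs_mul, abs_mul, abs_norm, abs_of_pos Real.pi_pos, abs_of_pos (by norm_num : (0 : ℝ) < 2),
          abs_of_pos (by positivity : (0 : ℝ) < 2 * Real.pi * ‖ξ‖)]
        exact le_of_eq (by ring)⟩)
    (fun t ht => (hK₁ t ht).2)
    (fun u => Axial (u : EE (n + 1) → ℂ)) (fun lam u hl hu => (hC₁ lam u hl hu).2)
  refine ⟨2 * (D₀ + D₁) ^ (1 / p), ?_⟩
  intro u₀ u₁ hu₀ hu₁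
  have h0 := hD₀ u₀ hu₀
  have h1 := hD₁ u₁ hu₁
  rw [eLp_eq _ hp0, eLp_eq _ hp0]
  set G₀ : ℝ≥0∞ := ∫⁻ x, ‖besS r₀ u₀ x‖ₑ ^ p with hG₀
  set G₁ : ℝ≥0∞ := ∫⁻ x, ‖besS r₁ u₁ x‖ₑ ^ p with hG₁
  have hc : ∀ t x, cosS (u₀ : EE (n + 1) → ℂ) t x =
      MM (fun ξ => ((Real.cos (2 * Real.pi * t * ‖ξ‖) : ℝ) : ℂ)) u₀ x := by
    intro t x; rw [MM_eq]; rfl
  have hs : ∀ t x, sinS (u₁ : EE (n + 1) → ℂ) t x =
      MM (fun ξ => ((Real.sin (2 * Real.pi * t * ‖ξ‖) / (2 * Real.pi * ‖ξ‖) : ℝ) : ℂ)) u₁ x := by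
    intro t x; rw [MM_eq]; rfl
  have hpt : ∀ t : ℝ, eLpNorm (fun x => cosS (u₀ : EE (n + 1) → ℂ) t x +
      sinS (u₁ : EE (n + 1) → ℂ) t x) (ENNReal.ofReal p) volume ^ p =
      ∫⁻ x, ‖cosS (u₀ : EE (n + 1) → ℂ) t x + sinS (u₁ : EE (n + 1) → ℂ) t x‖ₑ ^ p := by
    intro t
    rw [eLp_eq _ hp0, ← ENNReal.rpow_mul, one_div_mul_cancel hp0.ne', ENNReal.rpow_one]
  simp_rw [hpt]
  have hme : Measurable fun q : ℝ × EE (n + 1) => (2 : ℝ≥0∞) ^ p *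
      ‖MM (fun ξ => ((Real.cos (2 * Real.pi * q.1 * ‖ξ‖) : ℝ) : ℂ)) u₀ q.2‖ₑ ^ p := by
    refine ((MM_meas (m := fun t ξ => ((Real.cos (2 * Real.pi * t * ‖ξ‖) : ℝ) : ℂ)) ?_
      (fourier_meas u₀)).enorm.pow_const p).const_mul _
    exact Complex.measurable_ofReal.comp hmc
  have h2p : (2 : ℝ≥0∞) ^ p ≠ ⊤ := ENNReal.rpow_ne_top_of_nonneg hp0.le (by norm_num)
  have hmain : ∫⁻ t in Icc (1 : ℝ) 2, ∫⁻ x, ‖cosS (u₀ : EE (n + 1) → ℂ) t x +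
      sinS (u₁ : EE (n + 1) → ℂ) t x‖ₑ ^ p ≤ (2 : ℝ≥0∞) ^ p * (D₀ * G₀ + D₁ * G₁) := by
    calc ∫⁻ t in Icc (1 : ℝ) 2, ∫⁻ x, ‖cosS (u₀ : EE (n + 1) → ℂ) t x +
          sinS (u₁ : EE (n + 1) → ℂ) t x‖ₑ ^ p
        ≤ ∫⁻ t in Icc (1 : ℝ) 2, ∫⁻ x, ((2 : ℝ≥0∞) ^ p *
            ‖MM (fun ξ => ((Real.cos (2 * Real.pi * t * ‖ξ‖) : ℝ) : ℂ)) u₀ x‖ₑ ^ p +
            (2 : ℝ≥0∞) ^ p * ‖MM (fun ξ => ((Real.sin (2 * Real.pi * t * ‖ξ‖) /
              (2 * Real.pi * ‖ξ‖) : ℝ) : ℂ)) u₁ x‖ₑ ^ p) := by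
          refine lintegral_mono fun t => lintegral_mono fun x => ?_
          rw [hc, hs]
          generalize MM (fun ξ => ((Real.cos (2 * Real.pi * t * ‖ξ‖) : ℝ) : ℂ)) u₀ x = a
          generalize MM (fun ξ => ((Real.sin (2 * Real.pi * t * ‖ξ‖) /
              (2 * Real.pi * ‖ξ‖) : ℝ) : ℂ)) u₁ x = b
          have hab := half_bound (a := a) (b := b) (z := (1 / 2 : ℂ) * (a + b)) hp0.le (1 / 2)
            (by simp) rfl
          have h3 : ‖a + b‖ₑ = 2 * ‖(1 / 2 : ℂ) * (a + b)‖ₑ := by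
            rw [enorm_mul, ← mul_assoc]
            have : ‖(1 / 2 : ℂ)‖ₑ = ENNReal.ofReal (1 / 2) := by
              rw [← ofReal_norm]; congr 1; simp
            rw [this]
            have h4 : (2 : ℝ≥0∞) * ENNReal.ofReal (1 / 2) = 1 := by
              rw [show (2 : ℝ≥0∞) = ENNReal.ofReal 2 by simp, ← ENNReal.ofReal_mul (by norm_num)]
              norm_num
            rw [h4, one_mul]
          rw [h3, ENNReal.mul_rpow_of_nonneg _ _ hp0.le, ← mul_add]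
          gcongr
      _ = ∫⁻ t in Icc (1 : ℝ) 2, ((∫⁻ x, (2 : ℝ≥0∞) ^ p *
            ‖MM (fun ξ => ((Real.cos (2 * Real.pi * t * ‖ξ‖) : ℝ) : ℂ)) u₀ x‖ₑ ^ p) +
            ∫⁻ x, (2 : ℝ≥0∞) ^ p * ‖MM (fun ξ => ((Real.sin (2 * Real.pi * t * ‖ξ‖) /
              (2 * Real.pi * ‖ξ‖) : ℝ) : ℂ)) u₁ x‖ₑ ^ p) := by
          refine lintegral_congr fun t => ?_
          have h5 := hme.comp (measurable_prodMk_left (x := t))
          exact lintegral_add_left h5 _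
      _ = (∫⁻ t in Icc (1 : ℝ) 2, ∫⁻ x, (2 : ℝ≥0∞) ^ p *
            ‖MM (fun ξ => ((Real.cos (2 * Real.pi * t * ‖ξ‖) : ℝ) : ℂ)) u₀ x‖ₑ ^ p) +
            ∫⁻ t in Icc (1 : ℝ) 2, ∫⁻ x, (2 : ℝ≥0∞) ^ p *
            ‖MM (fun ξ => ((Real.sin (2 * Real.pi * t * ‖ξ‖) /
              (2 * Real.pi * ‖ξ‖) : ℝ) : ℂ)) u₁ x‖ₑ ^ p := lintegral_add_left hme.lintegral_prod_right' _
      _ ≤ _ := by
          simp_rw [lintegral_const_mul' _ _ h2p]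
          rw [← mul_add]
          exact mul_le_mul_right (add_le_add h0 h1) _
  have h1p : 0 ≤ 1 / p := by positivity
  have h1p' : 1 / p ≤ 1 := by rw [div_le_one hp0]; exact hp1
  calc (∫⁻ t in Icc (1 : ℝ) 2, ∫⁻ x, ‖cosS (u₀ : EE (n + 1) → ℂ) t x +
      sinS (u₁ : EE (n + 1) → ℂ) t x‖ₑ ^ p) ^ (1 / p)
      ≤ ((2 : ℝ≥0∞) ^ p * ((D₀ + D₁) * (G₀ + G₁))) ^ (1 / p) := by
        apply ENNReal.rpow_le_rpow _ h1p
        refine le_trans hmain ?_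
        gcongr
        rw [add_mul]
        gcongr
        · exact le_self_add
        · exact le_add_self
    _ = 2 * ((D₀ + D₁ : ℝ≥0) : ℝ≥0∞) ^ (1 / p) * (G₀ + G₁) ^ (1 / p) := by
        rw [ENNReal.mul_rpow_of_nonneg _ _ h1p, ENNReal.mul_rpow_of_nonneg _ _ h1p,
          ← ENNReal.rpow_mul, mul_one_div_cancel hp0.ne', ENNReal.rpow_one, ENNReal.coe_add,
          mul_assoc]
    _ ≤ _ := by
        rw [ENNReal.coe_mul, ENNReal.coe_rpow_of_nonneg _ h1p]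
        exact mul_le_mul_right (ENNReal.rpow_add_le_add_rpow _ _ h1p h1p') _

end Pool.Agent.H14.LS
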