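import Pool.Agent.H14.LS.Sym

/-!
Module HIGHF.
-/

set_option autoImplicit false

namespace Pool.Agent.H14.LS

open MeasureTheory Set FourierTransform
open scoped ENNReal NNReal SchwartzMap
open Pool.Agent.H83.LS

theorem eta0_one {s : ℝ} (h : s ≤ 1) : eta0 s = 1 := by
  unfold eta0; exact Real.smoothTransition.one_of_one_le (by linarith)

theorem eta0_zero {s : ℝ} (h : 2 ≤ s) : eta0 s = 0 := by
  unfold eta0; exact Real.smoothTransition.zero_of_nonpos (by linarith)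

theorem eta0_nonneg (s : ℝ) : 0 ≤ eta0 s := Real.smoothTransition.nonneg _

theorem eta0_le_one (s : ℝ) : eta0 s ≤ 1 := Real.smoothTransition.le_one _

theorem eta0_smooth : ContDiff ℝ (⊤ : ℕ∞) eta0 := by
  unfold eta0
  exact Real.smoothTransition.contDiff.comp (contDiff_const.sub contDiff_id)

theorem chi_supp {s : ℝ} (h : chi s ≠ 0) : 1 / 2 ≤ s ∧ s ≤ 2 := by
  unfold chi at h
  constructor
  · by_contra hs
    push Not at hs
    rw [eta0_one (by linarith), eta0_one (by linarith)] at h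
    simp at h
  · by_contra hs
    push Not at hs
    rw [eta0_zero (by linarith), eta0_zero (by linarith)] at h
    simp at h

theorem chis_supp {s : ℝ} (h : chis s ≠ 0) : 1 / 4 ≤ s ∧ s ≤ 4 := by
  unfold chis at h
  constructor
  · by_contra hs
    push Not at hs
    rw [eta0_one (by linarith), eta0_one (by linarith)] at h
    simp at h
  · by_contra hs
    push Not at hs
    rw [eta0_zero (by linarith), eta0_zero (by linarith)] at h
    simp at h

theorem chi_chis (s : ℝ) : chi s * chis s = chi s := by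
  by_cases h : chi s = 0
  · simp [h]
  · have h1 := chi_supp h
    have h2 : chis s = 1 := by
      unfold chis
      rw [eta0_one (by linarith), eta0_zero (by linarith)]
      ring
    rw [h2, mul_one]

theorem chi_smooth : ContDiff ℝ (⊤ : ℕ∞) chi := by
  unfold chi
  exact eta0_smooth.sub (eta0_smooth.comp (contDiff_const.mul contDiff_id))

theorem chis_smooth : ContDiff ℝ (⊤ : ℕ∞) chis := by
  unfold chis
  exact (eta0_smooth.comp (contDiff_id.div_const 2)).sub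
    (eta0_smooth.comp (contDiff_const.mul contDiff_id))

theorem chi_abs_le (s : ℝ) : |chi s| ≤ 1 := by
  unfold chi
  rw [abs_le]
  have h1 := eta0_nonneg s
  have h2 := eta0_le_one s
  have h3 := eta0_nonneg (2 * s)
  have h4 := eta0_le_one (2 * s)
  constructor <;> linarith

/-- the two cutoffs -/
noncomputable def kap0 (s : ℝ) : ℂ := ((chis s : ℝ) : ℂ)
/-- the second cutoff -/
noncomputable def kap1 (s : ℝ) : ℂ := ((chis s / (2 * Real.pi * s) : ℝ) : ℂ)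

theorem kap0_Sm : Sm kap0 := by
  refine ⟨Complex.ofRealCLM.contDiff.comp chis_smooth, ?_⟩
  intro s hs
  have h1 : chis s ≠ 0 := by
    intro h; apply hs; simp [kap0, h]
  have := chis_supp h1
  constructor <;> linarith

theorem kap1_Sm : Sm kap1 := by
  have hsup : ∀ s, kap1 s ≠ 0 → 1 / 4 ≤ s ∧ s ≤ 4 := by
    intro s hs
    apply chis_supp
    intro h; apply hs; simp [kap1, h]
  refine ⟨?_, fun s hs => ?_⟩
  · rw [contDiff_iff_contDiffAt]
    intro s
    by_cases hs : s < 1 / 4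
    · have h1 : kap1 =ᶠ[nhds s] fun _ => 0 := by
        filter_upwards [isOpen_Iio.mem_nhds hs] with s' hs'
        by_contra h
        have := (hsup s' h).1
        rw [mem_Iio] at hs'
        linarith
      exact contDiffAt_const.congr_of_eventuallyEq h1
    · push Not at hs
      apply Complex.ofRealCLM.contDiff.contDiffAt.comp
      apply chis_smooth.contDiffAt.div
      · fun_prop
      · have : 0 < s := by linarith
        positivity
  · have := hsup s hs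
    constructor <;> linarith

/-- radial multipliers preserve axial symmetry -/
theorem axial_MM {n : ℕ} {u : EE (n + 1) → ℂ} (hu : Axial u) {m : EE (n + 1) → ℂ}
    (hm : ∀ ξ ξ' : EE (n + 1), ‖ξ‖ = ‖ξ'‖ → m ξ = m ξ') : Axial (MM m u) := by
  intro x y hxy hn
  set T : EE (n + 1) ≃ₗᵢ[ℝ] EE (n + 1) := (Submodule.span ℝ {x - y})ᗮ.reflection with hT
  have hTx : T x = y := Submodule.reflection_sub hn
  have hTl : ∀ z : EE (n + 1), (T z) (Fin.last n) = z (Fin.last n) := by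
    intro z
    have h1 : ∀ z : EE (n + 1), inner ℝ (EuclideanSpace.single (Fin.last n) (1 : ℝ)) z =
        z (Fin.last n) := by
      intro z
      rw [EuclideanSpace.inner_single_left]; simp
    have h2 : T (EuclideanSpace.single (Fin.last n) (1 : ℝ)) =
        EuclideanSpace.single (Fin.last n) (1 : ℝ) := by
      apply Submodule.reflection_mem_subspace_eq_self
      rw [Submodule.mem_orthogonal_singleton_iff_inner_right, real_inner_comm, h1]
      simp [hxy]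
    rw [← h1 (T z), ← h2, T.inner_map_map, h1]
  have h3 : u ∘ T = u := by
    funext z
    exact hu _ _ (hTl z) (T.norm_map z)
  have h4 : ∀ ξ, 𝓕 u (T ξ) = 𝓕 u ξ := by
    intro ξ
    have := Real.fourier_comp_linearIsometry T u ξ
    rw [h3] at this
    exact this.symm
  rw [MM_eq, MM_eq, ← hTx]
  have := Real.fourierInv_comp_linearIsometry T (fun ξ => m ξ * 𝓕 u ξ) x
  rw [← this]
  have h5 : ((fun ξ => m ξ * 𝓕 u ξ) ∘ ⇑T) = fun ξ => m ξ * 𝓕 u ξ := by
    funext ξ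
    simp only [Function.comp]
    rw [h4, hm (T ξ) ξ (T.norm_map ξ)]
  rw [h5]

theorem conj_MM {d : ℕ} {m f : EE d → ℂ} (hm : ∀ ξ, m (-ξ) = m ξ) (x : EE d) :
    (starRingEnd ℂ) (MM m (fun y => (starRingEnd ℂ) (f y)) x) =
      MM (fun ξ => (starRingEnd ℂ) (m ξ)) f x := by
  have hF : ∀ ξ : EE d, 𝓕 (fun y => (starRingEnd ℂ) (f y)) ξ = (starRingEnd ℂ) (𝓕 f (-ξ)) := by
    intro ξ
    rw [ff_eq, ff_eq, ← integral_conj]
    congr 1; ext y
    rw [map_mul, conj_e]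
    congr 2
    rw [inner_neg_right, neg_neg]
  unfold MM
  rw [← integral_conj, ← integral_neg_eq_self]
  congr 1; ext ξ
  rw [hF, map_mul, map_mul, Complex.conj_conj, conj_e, neg_neg, inner_neg_right, neg_neg, hm]

/-- the analytic core -/
theorem core (hS : T_STRONG) (hR : T_RADL) (hYG : T_YG) {n : ℕ} {p r η : ℝ} (hn : 2 ≤ n)
    (hp : 2 + 2 / (n : ℝ) ≤ p) (hη : 0 < η) {κ : ℝ → ℂ} (hκ : Sm κ) :
    ∃ C : ℝ≥0, ∀ (lam : ℝ) (u v : 𝓢(EE (n + 1), ℂ)), 1 ≤ lam → Axial (u : EE (n + 1) → ℂ) →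
      (∀ x, v x = MM (fun ξ => κ (‖ξ‖ / lam)) u x) →
      (∫⁻ t in Icc (1 : ℝ) 2, ∫⁻ x, ‖MM (mT lam t) v x‖ₑ ^ p ≤
        C * ENNReal.ofReal (lam ^ ((n : ℝ) * (p / 2 - 1) - 1 - p * r + η)) *
          ∫⁻ x, ‖besS r u x‖ₑ ^ p) ∧
      (∫⁻ t in Icc (1 : ℝ) 2, ∫⁻ x, ‖MM (mT lam t) (fun y => (starRingEnd ℂ) (v y)) x‖ₑ ^ p ≤
        C * ENNReal.ofReal (lam ^ ((n : ℝ) * (p / 2 - 1) - 1 - p * r + η)) *
          ∫⁻ x, ‖besS r u x‖ₑ ^ p) := by
  have hp1 : 1 ≤ p := by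
    have : 0 ≤ 2 / (n : ℝ) := by positivity
    linarith
  obtain ⟨C₁, hC₁⟩ := hS n p η hn hp hη
  obtain ⟨M, C₂, hC₂⟩ := hR (n + 1) (by omega)
  obtain ⟨B, hB0, hB⟩ := fam_CB hκ r M
  refine ⟨C₁ * (Real.toNNReal (C₂ * B)) ^ p, ?_⟩
  intro lam u v hl hu hv
  have hl0 : 0 < lam := by linarith
  obtain ⟨g, hg1, hg2⟩ := besS_schwartz r u
  -- the kernel
  have ha : 1 / lam ∈ Icc (0 : ℝ) 1 := by
    refine ⟨by positivity, ?_⟩
    rw [div_le_one hl0]; exact hl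
  have hK := (hC₂ (fam κ r (1 / lam)) B lam 0 (hB _ ha) hl0 le_rfl).1
  have hrk : rk (d := n + 1) (fam κ r (1 / lam)) lam 0 =
      MK (fun ξ => fam κ r (1 / lam) (‖ξ‖ / lam)) := by
    funext x
    unfold rk
    congr 1
    funext ξ
    rw [zero_mul, e_zero, one_mul]
  rw [hrk, mul_zero, add_zero, Real.one_rpow, mul_one] at hK
  have hfS := fam_Sm hκ r (1 / lam)
  have hY := MM_young hYG (radial_int (d := n + 1) hfS hl0) g.integrable
    g.continuous.measurable hp1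
  -- `v` in terms of `g`
  have hvg : ∀ x, v x = ((lam ^ (-r) : ℝ) : ℂ) *
      MM (fun ξ => fam κ r (1 / lam) (‖ξ‖ / lam)) g x := by
    intro x
    rw [hv]
    unfold MM
    rw [← integral_const_mul]
    congr 1; ext ξ
    rw [hg1]
    have h1 := fam_bs κ r hl0 ξ
    simp only
    rw [h1]
    ring
  have hvp : ∫⁻ x, ‖v x‖ₑ ^ p ≤ ENNReal.ofReal (lam ^ (-(p * r))) *
      ((Real.toNNReal (C₂ * B) : ℝ≥0∞) ^ p * ∫⁻ x, ‖besS r u x‖ₑ ^ p) := by
    have h1 : ∀ x, ‖v x‖ₑ ^ p = ENNReal.ofReal (lam ^ (-(p * r))) *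
        ‖MM (fun ξ => fam κ r (1 / lam) (‖ξ‖ / lam)) g x‖ₑ ^ p := by
      intro x
      rw [hvg, enorm_mul, ENNReal.mul_rpow_of_nonneg _ _ (by linarith)]
      congr 1
      rw [← ofReal_norm, Complex.norm_real, Real.norm_of_nonneg (by positivity),
        ENNReal.ofReal_rpow_of_nonneg (by positivity) (by linarith), ← Real.rpow_mul hl0.le]
      congr 2; ring
    simp_rw [h1]
    rw [lintegral_const_mul' _ _ ENNReal.ofReal_ne_top]
    gcongr
    refine le_trans hY ?_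
    have h2 : ∫⁻ x, ‖g x‖ₑ ^ p = ∫⁻ x, ‖besS r u x‖ₑ ^ p := by
      congr 1; ext x; rw [hg2]
    rw [h2]
    gcongr
    exact hK
  have hfin : ∀ w : EE (n + 1) → ℂ, (∀ x, ‖w x‖ₑ = ‖v x‖ₑ) →
      ∫⁻ t in Icc (1 : ℝ) 2, ∫⁻ x, ‖MM (mT lam t) w x‖ₑ ^ p ≤
        C₁ * ENNReal.ofReal (lam ^ ((n : ℝ) * (p / 2 - 1) - 1 + η)) * ∫⁻ x, ‖w x‖ₑ ^ p →
      ∫⁻ t in Icc (1 : ℝ) 2, ∫⁻ x, ‖MM (mT lam t) w x‖ₑ ^ p ≤
        ((C₁ * (Real.toNNReal (C₂ * B)) ^ p : ℝ≥0) : ℝ≥0∞) *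
          ENNReal.ofReal (lam ^ ((n : ℝ) * (p / 2 - 1) - 1 - p * r + η)) *
          ∫⁻ x, ‖besS r u x‖ₑ ^ p := by
    intro w hw h
    refine le_trans h ?_
    have h1 : ∫⁻ x, ‖w x‖ₑ ^ p = ∫⁻ x, ‖v x‖ₑ ^ p := by
      congr 1; ext x; rw [hw]
    rw [h1]
    refine le_trans (mul_le_mul_right hvp _) (le_of_eq ?_)
    have h2 : lam ^ ((n : ℝ) * (p / 2 - 1) - 1 - p * r + η) =
        lam ^ ((n : ℝ) * (p / 2 - 1) - 1 + η) * lam ^ (-(p * r)) := by
      rw [← Real.rpow_add hl0]; congr 1; ring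
    rw [h2, ENNReal.ofReal_mul (by positivity), ENNReal.coe_mul,
      ENNReal.coe_rpow_of_nonneg _ (by linarith)]
    ring
  -- axial symmetry
  have hax : Axial (v : EE (n + 1) → ℂ) := by
    have h1 : (v : EE (n + 1) → ℂ) = MM (fun ξ => κ (‖ξ‖ / lam)) u := by
      funext x; exact hv x
    rw [h1]
    apply axial_MM hu
    intro ξ ξ' h; simp only [h]
  have hbd : ∃ A : ℝ, ∀ x, ‖v x‖ ≤ A :=
    ⟨‖v.toBoundedContinuousFunction‖, fun x => v.toBoundedContinuousFunction.norm_coe_le_norm x⟩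
  constructor
  · apply hfin _ (fun x => rfl)
    exact hC₁ lam v hl hax v.continuous.measurable v.integrable hbd
  · have hnorm : ∀ x, ‖(starRingEnd ℂ) (v x)‖ = ‖v x‖ := fun x => RCLike.norm_conj _
    have henorm : ∀ x, ‖(starRingEnd ℂ) (v x)‖ₑ = ‖v x‖ₑ := by
      intro x; rw [← ofReal_norm, hnorm, ofReal_norm]
    apply hfin _ henorm
    apply hC₁ lam _ hl
    · intro x y h1 h2
      simp only [hax x y h1 h2]
    · exact Complex.continuous_conj.measurable.comp v.continuous.measurable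
    · have h3 : Continuous fun x => (starRingEnd ℂ) (v x) :=
        Complex.continuous_conj.comp v.continuous
      exact v.integrable.norm.mono' h3.aestronglyMeasurable
        (Filter.Eventually.of_forall fun x => (hnorm x).le)
    · obtain ⟨A, hA⟩ := hbd
      exact ⟨A, fun x => by rw [hnorm]; exact hA x⟩

theorem MM_meas {d : ℕ} {m : ℝ → EE d → ℂ} {f : EE d → ℂ}
    (hm : Measurable fun q : ℝ × EE d => m q.1 q.2) (hf : Measurable (𝓕 f)) :
    Measurable fun q : ℝ × EE d => MM (m q.1) f q.2 := by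
  unfold MM
  apply StronglyMeasurable.measurable
  apply StronglyMeasurable.integral_prod_right
    (f := fun (q : ℝ × EE d) (ξ : EE d) => e (inner ℝ q.2 ξ) * (m q.1 ξ * 𝓕 f ξ))
  apply Measurable.stronglyMeasurable
  have h1 : Measurable fun w : (ℝ × EE d) × EE d => e (inner ℝ w.1.2 w.2) :=
    measurable_e.comp (by fun_prop)
  have h2 : Measurable fun w : (ℝ × EE d) × EE d => m w.1.1 w.2 :=
    hm.comp (by fun_prop : Measurable fun w : (ℝ × EE d) × EE d => (w.1.1, w.2))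
  exact h1.mul (h2.mul (hf.comp measurable_snd))

theorem mT_meas {d : ℕ} (lam : ℝ) : Measurable fun q : ℝ × EE d => mT (d := d) lam q.1 q.2 := by
  unfold mT
  apply Measurable.mul
  · exact measurable_e.comp (by fun_prop)
  · exact Complex.measurable_ofReal.comp (chi_smooth.continuous.measurable.comp (by fun_prop))

theorem fourier_meas {d : ℕ} (v : 𝓢(EE d, ℂ)) : Measurable (𝓕 (v : EE d → ℂ)) := by
  rw [← SchwartzMap.fourier_coe]
  exact (𝓕 v).continuous.measurable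

theorem fourier_int {d : ℕ} (v : 𝓢(EE d, ℂ)) : Integrable (𝓕 (v : EE d → ℂ)) := by
  rw [← SchwartzMap.fourier_coe]
  exact (𝓕 v).integrable

theorem mT_norm {d : ℕ} (lam t : ℝ) (ξ : EE d) : ‖mT lam t ξ‖ ≤ 1 := by
  unfold mT
  rw [norm_mul, norm_e, one_mul, Complex.norm_real, Real.norm_eq_abs]
  exact chi_abs_le _

theorem mT_even {d : ℕ} (lam t : ℝ) (ξ : EE d) : mT lam t (-ξ) = mT lam t ξ := by
  unfold mT; rw [norm_neg]

theorem sym_int {d : ℕ} {m : EE d → ℂ} (hm : Measurable m) (hb : ∀ ξ, ‖m ξ‖ ≤ 1)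
    (v : 𝓢(EE d, ℂ)) (x : EE d) :
    Integrable fun ξ => e (inner ℝ x ξ) * (m ξ * 𝓕 (v : EE d → ℂ) ξ) := by
  refine (fourier_int v).norm.mono'
    ((measurable_char x).mul (hm.mul (fourier_meas v))).aestronglyMeasurable
    (Filter.Eventually.of_forall fun ξ => ?_)
  rw [norm_mul, norm_e, one_mul, norm_mul]
  exact mul_le_of_le_one_left (norm_nonneg _) (hb ξ)

theorem e_eq (y : ℝ) : e y = (Real.cos (2 * Real.pi * y) : ℂ) +
    (Real.sin (2 * Real.pi * y) : ℂ) * Complex.I := by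
  unfold e
  rw [Complex.exp_mul_I, ← Complex.ofReal_cos, ← Complex.ofReal_sin]

theorem half_bound {a b z : ℂ} {p : ℝ} (hp : 0 ≤ p) (c : ℂ) (hc : ‖c‖ ≤ 1 / 2)
    (h : z = c * (a + b)) : ‖z‖ₑ ^ p ≤ ‖a‖ₑ ^ p + ‖b‖ₑ ^ p := by
  have h1 : ‖z‖ ≤ max ‖a‖ ‖b‖ := by
    rw [h, norm_mul]
    have h2 := norm_add_le a b
    have h3 := le_max_left ‖a‖ ‖b‖
    have h4 := le_max_right ‖a‖ ‖b‖
    have h5 := norm_nonneg (a + b)
    nlinarith [norm_nonneg c]
  have h2 : ‖z‖ₑ ≤ max ‖a‖ₑ ‖b‖ₑ := by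
    rw [← ofReal_norm, ← ofReal_norm, ← ofReal_norm, ← ENNReal.ofReal_max]
    exact ENNReal.ofReal_le_ofReal h1
  refine le_trans (ENNReal.rpow_le_rpow h2 hp) ?_
  rcases le_total ‖a‖ₑ ‖b‖ₑ with h3 | h3
  · rw [max_eq_right h3]; exact le_add_self
  · rw [max_eq_left h3]; exact le_self_add

theorem split_bound {d : ℕ} (lam p : ℝ) (hp : 0 ≤ p) (v : 𝓢(EE d, ℂ))
    (z : ℝ → EE d → ℂ) (c : ℂ) (hc : ‖c‖ ≤ 1 / 2) (δ : ℂ) (hδ : ‖δ‖ = 1)
    (hz : ∀ t x, z t x = c * (MM (mT lam t) v x +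
      δ * MM (fun ξ => (starRingEnd ℂ) (mT lam t ξ)) v x)) :
    ∫⁻ t in Icc (1 : ℝ) 2, ∫⁻ x, ‖z t x‖ₑ ^ p ≤
      (∫⁻ t in Icc (1 : ℝ) 2, ∫⁻ x, ‖MM (mT lam t) v x‖ₑ ^ p) +
      ∫⁻ t in Icc (1 : ℝ) 2, ∫⁻ x, ‖MM (mT lam t) (fun y => (starRingEnd ℂ) (v y)) x‖ₑ ^ p := by
  have hme : Measurable fun q : ℝ × EE d => ‖MM (mT lam q.1) v q.2‖ₑ ^ p :=
    (MM_meas (mT_meas lam) (fourier_meas v)).enorm.pow_const _
  have h1 : ∀ t x, ‖z t x‖ₑ ^ p ≤ ‖MM (mT lam t) v x‖ₑ ^ p +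
      ‖MM (mT lam t) (fun y => (starRingEnd ℂ) (v y)) x‖ₑ ^ p := by
    intro t x
    have h2 := half_bound (a := MM (mT lam t) v x)
      (b := δ * MM (fun ξ => (starRingEnd ℂ) (mT lam t ξ)) v x) hp c hc (hz t x)
    have h3 : ‖δ * MM (fun ξ => (starRingEnd ℂ) (mT lam t ξ)) v x‖ₑ =
        ‖MM (mT lam t) (fun y => (starRingEnd ℂ) (v y)) x‖ₑ := by
      rw [← conj_MM (mT_even lam t), enorm_mul, ← ofReal_norm, hδ, ENNReal.ofReal_one, one_mul,
        ← ofReal_norm, RCLike.norm_conj, ofReal_norm]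
    rwa [h3] at h2
  calc ∫⁻ t in Icc (1 : ℝ) 2, ∫⁻ x, ‖z t x‖ₑ ^ p
      ≤ ∫⁻ t in Icc (1 : ℝ) 2, ∫⁻ x, (‖MM (mT lam t) v x‖ₑ ^ p +
        ‖MM (mT lam t) (fun y => (starRingEnd ℂ) (v y)) x‖ₑ ^ p) :=
        lintegral_mono fun t => lintegral_mono fun x => h1 t x
    _ = ∫⁻ t in Icc (1 : ℝ) 2, ((∫⁻ x, ‖MM (mT lam t) v x‖ₑ ^ p) +
        ∫⁻ x, ‖MM (mT lam t) (fun y => (starRingEnd ℂ) (v y)) x‖ₑ ^ p) := by
        refine lintegral_congr fun t => ?_
        have h5 := hme.comp (measurable_prodMk_left (x := t))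
        exact lintegral_add_left h5 _
    _ = _ := lintegral_add_left hme.lintegral_prod_right' _

theorem highf (hS : T_STRONG) (hR : T_RADL) (hYG : T_YG) : T_HIGHF := by
  intro n p r η hn hp hη
  have hp0 : 0 ≤ p := by
    have : 0 ≤ 2 / (n : ℝ) := by positivity
    linarith
  obtain ⟨C₀, hC₀⟩ := core hS hR hYG (r := r) hn hp hη kap0_Sm
  obtain ⟨C₁, hC₁⟩ := core hS hR hYG (r := r) hn hp hη kap1_Sm
  refine ⟨2 * (C₀ + C₁), ?_⟩
  intro lam u hl hu
  have hl0 : 0 < lam := by linarith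
  have hcm : ∀ t : ℝ, Measurable fun ξ : EE (n + 1) => (starRingEnd ℂ) (mT lam t ξ) := by
    intro t
    exact Complex.continuous_conj.measurable.comp
      ((mT_meas lam).comp (measurable_const.prodMk measurable_id))
  have hmm : ∀ t : ℝ, Measurable fun ξ : EE (n + 1) => mT lam t ξ := fun t =>
    (mT_meas lam).comp (measurable_const.prodMk measurable_id)
  have hcn : ∀ (t : ℝ) (ξ : EE (n + 1)), ‖(starRingEnd ℂ) (mT lam t ξ)‖ ≤ 1 := by
    intro t ξ; rw [RCLike.norm_conj]; exact mT_norm lam t ξ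
  constructor
  · obtain ⟨v, hv1, hv2⟩ := schwartz_mult (radial_temp (d := n + 1) kap0_Sm hl0) u
    obtain ⟨hA, hB⟩ := hC₀ lam u v hl hu hv2
    refine le_trans (split_bound lam p hp0 v _ (1 / 2) (by simp) 1 (by simp) ?_) ?_
    · intro t x
      rw [one_mul]
      unfold MM
      rw [← integral_add (sym_int (hmm t) (mT_norm lam t) v x) (sym_int (hcm t) (hcn t) v x),
        ← integral_const_mul]
      congr 1; ext ξ
      rw [hv1]
      unfold mT kap0
      rw [map_mul, Complex.conj_ofReal, conj_e, e_eq (t * ‖ξ‖), e_eq (-(t * ‖ξ‖))]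
      have h1 : 2 * Real.pi * -(t * ‖ξ‖) = -(2 * Real.pi * t * ‖ξ‖) := by ring
      have h2 : 2 * Real.pi * (t * ‖ξ‖) = 2 * Real.pi * t * ‖ξ‖ := by ring
      rw [h1, h2, Real.cos_neg, Real.sin_neg]
      have h3 : ((chi (‖ξ‖ / lam) : ℝ) : ℂ) * ((chis (‖ξ‖ / lam) : ℝ) : ℂ) =
          ((chi (‖ξ‖ / lam) : ℝ) : ℂ) := by exact_mod_cast congrArg Complex.ofReal (chi_chis _)
      push_cast
      linear_combination (-(e (inner ℝ x ξ)) * Complex.cos (2 * Real.pi * t * ‖ξ‖) *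
        𝓕 (u : EE (n + 1) → ℂ) ξ) * h3
    · refine le_trans (add_le_add hA hB) ?_
      rw [← two_mul, ← mul_assoc, ← mul_assoc]
      gcongr
      push_cast
      exact mul_le_mul_right le_self_add _
  · obtain ⟨v, hv1, hv2⟩ := schwartz_mult (radial_temp (d := n + 1) kap1_Sm hl0) u
    obtain ⟨hA, hB⟩ := hC₁ lam u v hl hu hv2
    set z : ℝ → EE (n + 1) → ℂ := fun t x => (lam : ℂ) *
      MM (fun ξ => ((Real.sin (2 * Real.pi * t * ‖ξ‖) / (2 * Real.pi * ‖ξ‖) *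
        chi (‖ξ‖ / lam) : ℝ) : ℂ)) u x with hz
    have hzb := split_bound lam p hp0 v z (-(1 / 2 * Complex.I)) (by simp) (-1) (by simp) ?_
    · have h1 : ∀ t x, ‖MM (fun ξ => ((Real.sin (2 * Real.pi * t * ‖ξ‖) /
          (2 * Real.pi * ‖ξ‖) * chi (‖ξ‖ / lam) : ℝ) : ℂ)) u x‖ₑ ^ p =
          ENNReal.ofReal (lam ^ (-p)) * ‖z t x‖ₑ ^ p := by
        intro t x
        rw [hz]
        simp only
        rw [enorm_mul, ENNReal.mul_rpow_of_nonneg _ _ hp0, ← mul_assoc]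
        have h2 : ‖(lam : ℂ)‖ₑ = ENNReal.ofReal lam := by
          rw [← ofReal_norm, Complex.norm_real, Real.norm_of_nonneg hl0.le]
        rw [h2, ENNReal.ofReal_rpow_of_pos hl0, ← ENNReal.ofReal_mul (by positivity),
          ← Real.rpow_add hl0]
        simp
      simp_rw [h1]
      simp_rw [lintegral_const_mul' _ _ (ENNReal.ofReal_ne_top (r := lam ^ (-p)))]
      refine le_trans (mul_le_mul_right (le_trans hzb (add_le_add hA hB)) _) ?_
      rw [← two_mul]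
      have h3 : lam ^ ((n : ℝ) * (p / 2 - 1) - 1 - p * (r + 1) + η) =
          lam ^ (-p) * lam ^ ((n : ℝ) * (p / 2 - 1) - 1 - p * r + η) := by
        rw [← Real.rpow_add hl0]; congr 1; ring
      rw [h3, ENNReal.ofReal_mul (by positivity)]
      calc ENNReal.ofReal (lam ^ (-p)) * (2 * (C₁ *
            ENNReal.ofReal (lam ^ ((n : ℝ) * (p / 2 - 1) - 1 - p * r + η)) *
            ∫⁻ x, ‖besS r u x‖ₑ ^ p)) = ((2 * C₁ : ℝ≥0) : ℝ≥0∞) *
            (ENNReal.ofReal (lam ^ (-p)) *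
            ENNReal.ofReal (lam ^ ((n : ℝ) * (p / 2 - 1) - 1 - p * r + η))) *
            ∫⁻ x, ‖besS r u x‖ₑ ^ p := by push_cast; ring
        _ ≤ _ := by
          gcongr
          exact le_add_self
    · intro t x
      rw [hz]
      unfold MM
      beta_reduce
      rw [← integral_const_mul, ← integral_const_mul,
        ← integral_add (sym_int (hmm t) (mT_norm lam t) v x)
          ((sym_int (hcm t) (hcn t) v x).const_mul (-1)),
        ← integral_const_mul]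
      congr 1; ext ξ
      rw [hv1]
      unfold mT kap1
      rw [map_mul, Complex.conj_ofReal, conj_e, e_eq (t * ‖ξ‖), e_eq (-(t * ‖ξ‖))]
      have h1 : 2 * Real.pi * -(t * ‖ξ‖) = -(2 * Real.pi * t * ‖ξ‖) := by ring
      have h2 : 2 * Real.pi * (t * ‖ξ‖) = 2 * Real.pi * t * ‖ξ‖ := by ring
      rw [h1, h2, Real.cos_neg, Real.sin_neg]
      have h3 : chi (‖ξ‖ / lam) * (chis (‖ξ‖ / lam) / (2 * Real.pi * (‖ξ‖ / lam))) =
          lam * (chi (‖ξ‖ / lam) / (2 * Real.pi * ‖ξ‖)) := by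
        rw [← mul_div_assoc, chi_chis]
        rcases eq_or_ne ‖ξ‖ 0 with h0 | h0
        · simp [h0]
        · field_simp
      have h4 : ((chi (‖ξ‖ / lam) : ℝ) : ℂ) *
          ((chis (‖ξ‖ / lam) / (2 * Real.pi * (‖ξ‖ / lam)) : ℝ) : ℂ) =
          (lam : ℂ) * ((chi (‖ξ‖ / lam) / (2 * Real.pi * ‖ξ‖) : ℝ) : ℂ) := by
        exact_mod_cast congrArg Complex.ofReal h3
      have h5 : ((Real.sin (2 * Real.pi * t * ‖ξ‖) / (2 * Real.pi * ‖ξ‖) *
          chi (‖ξ‖ / lam) : ℝ) : ℂ) = ((Real.sin (2 * Real.pi * t * ‖ξ‖) : ℝ) : ℂ) *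
          ((chi (‖ξ‖ / lam) / (2 * Real.pi * ‖ξ‖) : ℝ) : ℂ) := by
        rw [← Complex.ofReal_mul]; congr 1; ring
      rw [h5]
      generalize ((chi (‖ξ‖ / lam) / (2 * Real.pi * ‖ξ‖) : ℝ) : ℂ) = X at h4 ⊢
      generalize ((chis (‖ξ‖ / lam) / (2 * Real.pi * (‖ξ‖ / lam)) : ℝ) : ℂ) = Y at h4 ⊢
      generalize ((chi (‖ξ‖ / lam) : ℝ) : ℂ) = Z at h4 ⊢
      generalize ((Real.cos (2 * Real.pi * t * ‖ξ‖) : ℝ) : ℂ) = c
      rw [Complex.ofReal_neg]
      generalize ((Real.sin (2 * Real.pi * t * ‖ξ‖) : ℝ) : ℂ) = s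
      generalize e (inner ℝ x ξ) = E
      generalize 𝓕 (u : EE (n + 1) → ℂ) ξ = w
      have hI : Complex.I * Complex.I = -1 := Complex.I_mul_I
      linear_combination (-(E * s * w)) * h4 + (E * s * w * Z * Y) * hI

end Pool.Agent.H14.LS
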