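import Pool.Agent.H83.LS.Basic
import Pool.Agent.H83.LS.Targets1

/-!
Modules KB and DEC: decay of the inverse Fourier transform, uniform over compact parameter sets.
-/

set_option autoImplicit false

namespace Pool.Agent.H14.LS

open MeasureTheory Set Metric
open scoped ENNReal NNReal
open Pool.Agent.H83.LS

section Par

variable {m : ℕ}

/-- smooth symbols with parameters in `O`, supported in the ball of radius `R` -/
def GoodF (O : Set (Fin m → ℝ)) (R : ℝ) (Ψ : (Fin m → ℝ) × (ℝ × ℝ) → ℂ) : Prop :=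
  ContDiffOn ℝ (⊤ : ℕ∞) Ψ (O ×ˢ univ) ∧ ∀ p ∈ O, ∀ ζ : ℝ × ℝ, R < ‖ζ‖ → Ψ (p, ζ) = 0

/-- derivative in the direction `w` of the frequency variables -/
noncomputable def DD (w : ℝ × ℝ) (Ψ : (Fin m → ℝ) × (ℝ × ℝ) → ℂ) :
    (Fin m → ℝ) × (ℝ × ℝ) → ℂ := fun q => fderiv ℝ Ψ q (0, w)

variable {O : Set (Fin m → ℝ)} {R : ℝ} {Ψ : (Fin m → ℝ) × (ℝ × ℝ) → ℂ}

theorem GoodF.dd (hO : IsOpen O) (h : GoodF O R Ψ) (w : ℝ × ℝ) : GoodF O R (DD w Ψ) := by
  have hOu : IsOpen (O ×ˢ (univ : Set (ℝ × ℝ))) := hO.prod isOpen_univ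
  refine ⟨?_, ?_⟩
  · have h1 : ContDiffOn ℝ (⊤ : ℕ∞) (fderiv ℝ Ψ) (O ×ˢ univ) :=
      h.1.fderiv_of_isOpen hOu (by simp)
    exact h1.clm_apply contDiffOn_const
  · intro p hp ζ hζ
    have hopen : IsOpen (O ×ˢ {ζ : ℝ × ℝ | R < ‖ζ‖}) :=
      hO.prod (isOpen_lt continuous_const continuous_norm)
    have heq : Ψ =ᶠ[nhds (p, ζ)] fun _ => 0 := by
      filter_upwards [hopen.mem_nhds (mk_mem_prod hp hζ)] with q hq
      exact h.2 q.1 hq.1 q.2 hq.2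
    unfold DD
    rw [heq.fderiv_eq]
    simp

theorem GoodF.slice (h : GoodF O R Ψ) {p : Fin m → ℝ} (hp : p ∈ O) :
    ContDiff ℝ (⊤ : ℕ∞) (fun ζ => Ψ (p, ζ)) := by
  rw [← contDiffOn_univ]
  exact h.1.comp (contDiff_const.prodMk contDiff_id).contDiffOn (fun ζ _ => ⟨hp, mem_univ _⟩)

theorem GoodF.supp (h : GoodF O R Ψ) {p : Fin m → ℝ} (hp : p ∈ O) :
    HasCompactSupport (fun ζ => Ψ (p, ζ)) := by
  refine HasCompactSupport.of_support_subset_isCompact (isCompact_closedBall 0 R) ?_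
  intro ζ hζ
  rw [Function.mem_support] at hζ
  rw [mem_closedBall_zero_iff]
  by_contra hcon
  push Not at hcon
  exact hζ (h.2 p hp ζ hcon)

theorem GoodF.int (h : GoodF O R Ψ) {p : Fin m → ℝ} (hp : p ∈ O) :
    Integrable (fun ζ => Ψ (p, ζ)) :=
  (h.slice hp).continuous.integrable_of_hasCompactSupport (h.supp hp)

theorem fderiv_slice (hO : IsOpen O) (h : GoodF O R Ψ) {p : Fin m → ℝ} (hp : p ∈ O)
    (ζ w : ℝ × ℝ) : fderiv ℝ (fun ζ => Ψ (p, ζ)) ζ w = DD w Ψ (p, ζ) := by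
  have hOu : IsOpen (O ×ˢ (univ : Set (ℝ × ℝ))) := hO.prod isOpen_univ
  have h1 : DifferentiableAt ℝ Ψ (p, ζ) :=
    (h.1.differentiableOn (by simp)).differentiableAt (hOu.mem_nhds ⟨hp, mem_univ _⟩)
  have h2 := h1.hasFDerivAt.comp ζ (hasFDerivAt_prodMk_right p ζ)
  have h3 : fderiv ℝ (fun ζ => Ψ (p, ζ)) ζ =
      (fderiv ℝ Ψ (p, ζ)).comp (ContinuousLinearMap.inr ℝ (Fin m → ℝ) (ℝ × ℝ)) := h2.fderiv
  rw [h3]
  simp [DD]

end Par

theorem hasDerivAt_e (x : ℝ) : HasDerivAt e ((2 * Real.pi : ℝ) * Complex.I * e x) x := by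
  unfold e
  have h1 : HasDerivAt (fun x : ℝ => ((2 * Real.pi * x : ℝ) : ℂ) * Complex.I)
      (((2 * Real.pi : ℝ) : ℂ) * Complex.I) x := by
    have h2 : HasDerivAt (fun x : ℝ => 2 * Real.pi * x) (2 * Real.pi) x := by
      simpa using (hasDerivAt_id x).const_mul (2 * Real.pi)
    exact (h2.ofReal_comp).mul_const _
  have h3 := h1.cexp
  convert! h3 using 1
  ring

/-- the character as a function of the frequency -/
theorem hasFDerivAt_char (y ζ : ℝ × ℝ) :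
    HasFDerivAt (fun ζ : ℝ × ℝ => e (y.1 * ζ.1 + y.2 * ζ.2))
      ((y.1 • ContinuousLinearMap.fst ℝ ℝ ℝ + y.2 • ContinuousLinearMap.snd ℝ ℝ ℝ).smulRight
        ((2 * Real.pi : ℝ) * Complex.I * e (y.1 * ζ.1 + y.2 * ζ.2))) ζ := by
  have h1 : HasFDerivAt (fun ζ : ℝ × ℝ => y.1 * ζ.1 + y.2 * ζ.2)
      (y.1 • ContinuousLinearMap.fst ℝ ℝ ℝ + y.2 • ContinuousLinearMap.snd ℝ ℝ ℝ) ζ := by
    have h := (y.1 • ContinuousLinearMap.fst ℝ ℝ ℝ +
      y.2 • ContinuousLinearMap.snd ℝ ℝ ℝ).hasFDerivAt (x := ζ)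
    exact h
  exact (hasDerivAt_e _).hasFDerivAt.comp ζ h1 |>.congr_fderiv (by
    ext <;> simp)

section Main

variable {m : ℕ} {O : Set (Fin m → ℝ)} {R : ℝ} {Ψ : (Fin m → ℝ) × (ℝ × ℝ) → ℂ}

/-- integration by parts -/
theorem Fi_dd (hO : IsOpen O) (h : GoodF O R Ψ) {p : Fin m → ℝ} (hp : p ∈ O) (w y : ℝ × ℝ) :
    Fi (fun ζ => DD w Ψ (p, ζ)) y =
      -((((y.1 * w.1 + y.2 * w.2 : ℝ) : ℂ) * ((2 * Real.pi : ℝ) * Complex.I)) *
        Fi (fun ζ => Ψ (p, ζ)) y) := by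
  have hd := h.dd hO w
  have hfd : ∀ ζ, fderiv ℝ (fun ζ : ℝ × ℝ => e (y.1 * ζ.1 + y.2 * ζ.2)) ζ w =
      ((y.1 * w.1 + y.2 * w.2 : ℝ) : ℂ) * ((2 * Real.pi : ℝ) * Complex.I) *
        e (y.1 * ζ.1 + y.2 * ζ.2) := by
    intro ζ
    rw [(hasFDerivAt_char y ζ).fderiv]
    simp
    ring
  have hI := integrable_e_mul (h.int hp) y
  have hI' := integrable_e_mul (hd.int hp) y
  have key := integral_mul_fderiv_eq_neg_fderiv_mul_of_integrable (𝕜 := ℂ) (μ := volume)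
    (f := fun ζ : ℝ × ℝ => e (y.1 * ζ.1 + y.2 * ζ.2)) (g := fun ζ => Ψ (p, ζ)) (v := w)
    (by
      simp only [hfd, mul_assoc]
      simpa [mul_assoc] using
        hI.const_mul (((y.1 * w.1 + y.2 * w.2 : ℝ) : ℂ) * ((2 * Real.pi : ℝ) * Complex.I)))
    (by
      simp only [fderiv_slice hO h hp]
      exact hI')
    hI (fun ζ _ => (hasFDerivAt_char y ζ).differentiableAt)
    (fun ζ _ => ((h.slice hp).differentiable (by simp)) ζ)
  simp only [hfd, fderiv_slice hO h hp] at key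
  unfold Fi
  rw [key]
  congr 1
  rw [← integral_const_mul]
  congr 1
  funext ζ
  ring

theorem norm_Fi_dd (hO : IsOpen O) (h : GoodF O R Ψ) {p : Fin m → ℝ} (hp : p ∈ O)
    (w y : ℝ × ℝ) : |y.1 * w.1 + y.2 * w.2| * ‖Fi (fun ζ => Ψ (p, ζ)) y‖ ≤
      ‖Fi (fun ζ => DD w Ψ (p, ζ)) y‖ := by
  rw [Fi_dd hO h hp, norm_neg, norm_mul, norm_mul, norm_mul, Complex.norm_I, mul_one,
    Complex.norm_real, Complex.norm_real, Real.norm_eq_abs, Real.norm_eq_abs]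
  have h1 : 1 ≤ |2 * Real.pi| := by
    rw [abs_of_pos (by positivity)]
    linarith [Real.pi_gt_three]
  have h2 : 0 ≤ |y.1 * w.1 + y.2 * w.2| * ‖Fi (fun ζ => Ψ (p, ζ)) y‖ := by positivity
  nlinarith

theorem base_bound {K : Set (Fin m → ℝ)} (hK : IsCompact K) (hKO : K ⊆ O) (h : GoodF O R Ψ) :
    ∃ C : ℝ, ∀ p ∈ K, ∀ y, ‖Fi (fun ζ => Ψ (p, ζ)) y‖ ≤ C := by
  obtain ⟨C, hC⟩ := (hK.prod (isCompact_closedBall (0 : ℝ × ℝ) R)).exists_bound_of_continuousOn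
    (h.1.continuousOn.mono (prod_mono hKO (subset_univ _)))
  refine ⟨C * (volume (closedBall (0 : ℝ × ℝ) R)).toReal, fun p hp y => ?_⟩
  refine (norm_Fi_le _ y).trans ?_
  have h1 : ∫ ζ, ‖Ψ (p, ζ)‖ = ∫ ζ in closedBall (0 : ℝ × ℝ) R, ‖Ψ (p, ζ)‖ := by
    symm
    apply setIntegral_eq_integral_of_forall_compl_eq_zero
    intro ζ hζ
    rw [mem_closedBall_zero_iff, not_le] at hζ
    rw [h.2 p (hKO hp) ζ hζ, norm_zero]
  rw [h1]
  have h2 := norm_setIntegral_le_of_norm_le_const (μ := volume) (s := closedBall (0 : ℝ × ℝ) R)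
    (f := fun ζ => ‖Ψ (p, ζ)‖) (C := C) measure_closedBall_lt_top
    (fun ζ hζ => by rw [norm_norm]; exact hC (p, ζ) ⟨hp, hζ⟩)
  rw [Measure.real] at h2
  exact (le_abs_self _).trans h2

theorem kb_aux (hO : IsOpen O) {K : Set (Fin m → ℝ)} (hK : IsCompact K) (hKO : K ⊆ O) :
    ∀ j k : ℕ, ∀ Ψ : (Fin m → ℝ) × (ℝ × ℝ) → ℂ, GoodF O R Ψ → ∃ C : ℝ, ∀ p ∈ K, ∀ y : ℝ × ℝ,
      ‖Fi (fun ζ => Ψ (p, ζ)) y‖ * ((1 + |y.1|) ^ j * (1 + |y.2|) ^ k) ≤ C := by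
  intro j
  induction j with
  | zero =>
    intro k
    induction k with
    | zero =>
      intro Ψ h
      obtain ⟨C, hC⟩ := base_bound hK hKO h
      exact ⟨C, fun p hp y => by simpa using hC p hp y⟩
    | succ k ih =>
      intro Ψ h
      obtain ⟨C1, hC1⟩ := ih Ψ h
      obtain ⟨C2, hC2⟩ := ih _ (h.dd hO (0, 1))
      refine ⟨C1 + C2, fun p hp y => ?_⟩
      have h1 := hC1 p hp y
      have h2 := hC2 p hp y
      have h3 := norm_Fi_dd hO h (hKO hp) (0, 1) y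
      simp only [mul_zero, mul_one, zero_add] at h3
      have h4 := mul_le_mul_of_nonneg_right h3
        (by positivity : 0 ≤ (1 + |y.1|) ^ 0 * (1 + |y.2|) ^ k)
      rw [pow_succ]
      nlinarith
  | succ j ih =>
    intro k Ψ h
    obtain ⟨C1, hC1⟩ := ih k Ψ h
    obtain ⟨C2, hC2⟩ := ih k _ (h.dd hO (1, 0))
    refine ⟨C1 + C2, fun p hp y => ?_⟩
    have h1 := hC1 p hp y
    have h2 := hC2 p hp y
    have h3 := norm_Fi_dd hO h (hKO hp) (1, 0) y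
    simp only [mul_zero, mul_one, add_zero] at h3
    have h4 := mul_le_mul_of_nonneg_right h3
      (by positivity : 0 ≤ (1 + |y.1|) ^ j * (1 + |y.2|) ^ k)
    rw [pow_succ]
    nlinarith

end Main

/-- module KB -/
theorem kb : T_KB := by
  intro m K O Ψ R hK hO hKO hΨ hR N
  obtain ⟨C, hC⟩ := kb_aux (R := R) hO hK hKO N N Ψ ⟨hΨ, hR⟩
  refine ⟨C, fun p hp y => ?_⟩
  rw [mul_pow]
  exact hC p hp y

theorem continuous_Fi {b : ℝ × ℝ → ℂ} (hb : Integrable b) : Continuous (Fi b) := by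
  unfold Fi
  refine continuous_of_dominated (bound := fun ζ => ‖b ζ‖) ?_ ?_ hb.norm ?_
  · intro y
    exact (integrable_e_mul hb y).aestronglyMeasurable
  · intro y
    refine Filter.Eventually.of_forall fun ζ => ?_
    rw [norm_mul, norm_e, one_mul]
  · refine Filter.Eventually.of_forall fun ζ => ?_
    exact (continuous_e.comp (by fun_prop)).mul continuous_const

/-- module DEC -/
theorem dec (hKB : T_KB) : T_DEC := by
  intro b hb
  refine ⟨continuous_Fi hb.integrable, fun N => ?_⟩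
  obtain ⟨R, hR⟩ := hb.2.isCompact.isBounded.exists_norm_le
  obtain ⟨C, hC⟩ := hKB 0 univ univ (fun q => b q.2) R isCompact_univ isOpen_univ subset_rfl
    ((hb.1.comp contDiff_snd).contDiffOn) (by
      intro p _ ζ hζ
      by_contra hcon
      have := hR ζ (subset_tsupport _ hcon)
      linarith) N
  exact ⟨C, fun y => hC default (mem_univ _) y⟩

theorem dec' : T_DEC := dec kb

end Pool.Agent.H14.LS
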