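import Pool.Agent.H14.LS.Fin

/-!
Module MAIN, part 1: shells, localization.
-/

set_option autoImplicit false

namespace Pool.Agent.H14.LS

open MeasureTheory Set FourierTransform Filter
open scoped ENNReal NNReal SchwartzMap Topology
open Pool.Agent.H83.LS

/-- projection to the hyperplane `x_n = 0` -/
noncomputable def hp (n : ℕ) (x : EE (n + 1)) : EE (n + 1) :=
  x - (x (Fin.last n)) • EuclideanSpace.single (Fin.last n) (1 : ℝ)

theorem inner_last {n : ℕ} (z : EE (n + 1)) :
    inner ℝ (EuclideanSpace.single (Fin.last n) (1 : ℝ)) z = z (Fin.last n) := by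
  rw [EuclideanSpace.inner_single_left]; simp

theorem hor_eq {n : ℕ} (x : EE (n + 1)) : hor x = ‖hp n x‖ := by
  unfold hor hp
  have h1 : ‖x - (x (Fin.last n)) • EuclideanSpace.single (Fin.last n) (1 : ℝ)‖ ^ 2 =
      ‖x‖ ^ 2 - (x (Fin.last n)) ^ 2 := by
    rw [norm_sub_sq_real, real_inner_smul_right, real_inner_comm, inner_last, norm_smul,
      PiLp.norm_single, norm_one, mul_one, Real.norm_eq_abs, sq_abs]
    ring
  rw [← h1, Real.sqrt_sq (norm_nonneg _)]

theorem hor_nonneg {n : ℕ} (x : EE (n + 1)) : 0 ≤ hor x := Real.sqrt_nonneg _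

theorem hor_le {n : ℕ} (x : EE (n + 1)) : hor x ≤ ‖x‖ := by
  unfold hor
  rw [Real.sqrt_le_left (norm_nonneg _)]
  nlinarith [sq_nonneg (x (Fin.last n))]

theorem hor_lip {n : ℕ} (x y : EE (n + 1)) : |hor x - hor y| ≤ ‖x - y‖ := by
  rw [hor_eq, hor_eq]
  refine le_trans (abs_norm_sub_norm_le _ _) ?_
  have h1 : hp n x - hp n y = hp n (x - y) := by
    unfold hp
    rw [PiLp.sub_apply, sub_smul]
    abel
  rw [h1, ← hor_eq]
  exact hor_le _

theorem hor_cont {n : ℕ} : Continuous (hor (n := n)) := by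
  unfold hor
  fun_prop

theorem hor_eq_of {n : ℕ} {x y : EE (n + 1)} (h1 : x (Fin.last n) = y (Fin.last n))
    (h2 : ‖x‖ = ‖y‖) : hor x = hor y := by
  unfold hor; rw [h1, h2]

/-- shells -/
def Sh (n : ℕ) (i : ℕ) : Set (EE (n + 1)) := {x | 8 * (i : ℝ) ≤ hor x ∧ hor x < 8 * ((i : ℝ) + 1)}

/-- fattened shells -/
def Nb (n : ℕ) (i : ℕ) : Set (EE (n + 1)) :=
  {x | 8 * ((i : ℝ) - 1) ≤ hor x ∧ hor x < 8 * ((i : ℝ) + 2)}

theorem Sh_meas (n i : ℕ) : MeasurableSet (Sh n i) :=
  (measurableSet_le measurable_const hor_cont.measurable).inter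
    (measurableSet_lt hor_cont.measurable measurable_const)

theorem Nb_meas (n i : ℕ) : MeasurableSet (Nb n i) :=
  (measurableSet_le measurable_const hor_cont.measurable).inter
    (measurableSet_lt hor_cont.measurable measurable_const)

theorem exists_shell {n : ℕ} (x : EE (n + 1)) : ∃ i, x ∈ Sh n i := by
  have h0 : 0 ≤ hor x / 8 := by have := hor_nonneg x; positivity
  refine ⟨⌊hor x / 8⌋₊, ?_, ?_⟩
  · have := Nat.floor_le h0
    rw [le_div_iff₀ (by norm_num)] at this
    linarith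
  · have := Nat.lt_floor_add_one (hor x / 8)
    rw [div_lt_iff₀ (by norm_num)] at this
    linarith

theorem far_of {n i : ℕ} {x y : EE (n + 1)} (hx : x ∈ Sh n i) (hy : y ∉ Nb n i) :
    8 ≤ ‖x - y‖ := by
  have h1 := hor_lip x y
  have h2 : hor y < 8 * ((i : ℝ) - 1) ∨ 8 * ((i : ℝ) + 2) ≤ hor y := by
    by_contra h
    push Not at h
    exact hy h
  obtain ⟨h3, h4⟩ := hx
  rcases h2 with h2 | h2
  · have := le_abs_self (hor x - hor y)
    linarith
  · have := neg_abs_le (hor x - hor y)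
    linarith

theorem overlap {n : ℕ} (x : EE (n + 1)) (c : ℝ≥0∞) :
    ∑' i, (Nb n i).indicator (fun _ => c) x ≤ 3 * c := by
  obtain ⟨k, hk1, hk2⟩ := exists_shell x
  have h1 : ∀ i, i ∉ Finset.Icc (k - 1) (k + 1) → (Nb n i).indicator (fun _ => c) x = 0 := by
    intro i hi
    apply indicator_of_notMem
    rintro ⟨h2, h3⟩
    apply hi
    rw [Finset.mem_Icc]
    have h4 : (i : ℝ) < k + 2 := by linarith
    have h5 : (k : ℝ) < i + 2 := by linarith
    have h6 : i < k + 2 := by exact_mod_cast h4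
    have h7 : k < i + 2 := by exact_mod_cast h5
    omega
  rw [tsum_eq_sum (s := Finset.Icc (k - 1) (k + 1)) (fun i hi => h1 i hi)]
  refine le_trans (Finset.sum_le_card_nsmul _ _ c (fun i _ => indicator_le_self' (by simp) x)) ?_
  rw [nsmul_eq_mul]
  gcongr
  rw [Nat.card_Icc]
  have : k + 1 + 1 - (k - 1) ≤ 3 := by omega
  exact_mod_cast this

theorem bcd_nonneg {d : ℕ} {A : ℝ} {f : EE d → ℂ} (h : BCd A f) : 0 ≤ A :=
  le_trans (norm_nonneg _) (h.2.1 0)

theorem bcd_int {d : ℕ} {A : ℝ} {f : EE d → ℂ} (h : BCd A f) : Integrable f := by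
  obtain ⟨h1, h2, R, h3⟩ := h
  have h4 : IntegrableOn f (Metric.closedBall 0 R) := by
    apply Measure.integrableOn_of_bounded (M := A) measure_closedBall_lt_top.ne
      h1.aestronglyMeasurable
    exact Eventually.of_forall fun x => h2 x
  rw [integrableOn_iff_integrable_of_support_subset] at h4
  · exact h4
  · intro x hx
    rw [Function.mem_support] at hx
    rw [mem_closedBall_zero_iff]
    by_contra h
    push Not at h
    exact hx (h3 x h)

theorem bcd_ind {d : ℕ} {A : ℝ} {f : EE d → ℂ} (h : BCd A f) {s : Set (EE d)}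
    (hs : MeasurableSet s) : BCd A (s.indicator f) := by
  obtain ⟨h1, h2, R, h3⟩ := h
  refine ⟨h1.indicator hs, fun x => ?_, R, fun x hx => ?_⟩
  · by_cases hx : x ∈ s
    · rw [indicator_of_mem hx]; exact h2 x
    · rw [indicator_of_notMem hx, norm_zero]
      exact le_trans (norm_nonneg _) (h2 x)
  · by_cases hxs : x ∈ s
    · rw [indicator_of_mem hxs]; exact h3 x hx
    · rw [indicator_of_notMem hxs]

theorem fourier_meas' {d : ℕ} {f : EE d → ℂ} (hf : Integrable f) : Measurable (𝓕 f) := by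
  have h1 : 𝓕 f = fun ξ => MK f (-ξ) := by
    funext ξ
    rw [ff_eq]
    unfold MK
    congr 1; ext y
    rw [inner_neg_left, real_inner_comm]
  rw [h1]
  exact ((MK_continuous hf).comp continuous_neg).measurable

theorem mT_int {d : ℕ} {lam : ℝ} (hl : 0 < lam) (t : ℝ) : Integrable (mT (d := d) lam t) := by
  have hS : Sm (fun s => ((chi s : ℝ) : ℂ)) := by
    refine ⟨Complex.ofRealCLM.contDiff.comp chi_smooth, fun s hs => ?_⟩
    have h1 : chi s ≠ 0 := by
      intro h; apply hs; simp [h]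
    have := chi_supp h1
    constructor <;> linarith
  have h1 := radial_int (d := d) hS hl
  unfold mT
  refine h1.bdd_mul (c := 1) (Measurable.aestronglyMeasurable ?_)
    (Eventually.of_forall fun ξ => (norm_e _).le)
  exact measurable_e.comp (by fun_prop)

/-- localization -/
theorem loc_pt {n i : ℕ} {lam t A : ℝ} (hl : 0 < lam) {f : EE (n + 1) → ℂ} (hf : BCd A f)
    {x : EE (n + 1)} (hx : x ∈ Sh n i) :
    ‖MM (mT lam t) f x‖ₑ ≤ ‖MM (mT lam t) ((Nb n i).indicator f) x‖ₑ +
      ∫⁻ y, {z : EE (n + 1) | 4 ≤ ‖z‖}.indicator (fun z => ‖MK (mT lam t) z‖ₑ) (x - y) * ‖f y‖ₑ := by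
  have hfi := bcd_ind hf (Nb_meas n i)
  have hfc := bcd_ind hf (Nb_meas n i).compl
  have hsum : ∀ y, (Nb n i).indicator f y + (Nb n i)ᶜ.indicator f y = f y := by
    intro y
    have := congrFun (indicator_self_add_compl (Nb n i) f) y
    simpa using this
  have hI : ∀ g : EE (n + 1) → ℂ, BCd A g → Integrable fun y => MK (mT lam t) (x - y) * g y := by
    intro g hg
    have h1 : ∃ B : ℝ, ∀ z, ‖MK (mT (d := n + 1) lam t) z‖ ≤ B := by
      refine ⟨∫ ξ, ‖mT (d := n + 1) lam t ξ‖, fun z => ?_⟩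
      unfold MK
      refine le_trans (norm_integral_le_integral_norm _) (le_of_eq ?_)
      congr 1; ext ξ
      rw [norm_mul, norm_e, one_mul]
    obtain ⟨B, hB⟩ := h1
    apply (bcd_int hg).bdd_mul (c := B)
    · exact ((MK_continuous (mT_int hl t)).comp
        (continuous_const.sub continuous_id)).aestronglyMeasurable
    · exact Eventually.of_forall fun y => hB _
  rw [MM_conv (mT_int hl t) (bcd_int hf), MM_conv (mT_int hl t) (bcd_int hfi)]
  have h1 : ∫ y, MK (mT lam t) (x - y) * f y =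
      (∫ y, MK (mT lam t) (x - y) * (Nb n i).indicator f y) +
      ∫ y, MK (mT lam t) (x - y) * (Nb n i)ᶜ.indicator f y := by
    rw [← integral_add (hI _ hfi) (hI _ hfc)]
    congr 1; ext y
    rw [← mul_add, hsum]
  rw [h1]
  refine le_trans (enorm_add_le _ _) ?_
  gcongr
  refine le_trans (enorm_integral_le_lintegral_enorm _) ?_
  refine lintegral_mono fun y => ?_
  by_cases hy : y ∈ Nb n i
  · rw [indicator_of_notMem (by simp [hy]), mul_zero, enorm_zero]
    positivity
  · rw [indicator_of_mem (by simpa using hy), enorm_mul, indicator_of_mem]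
    have := far_of hx hy
    rw [mem_ofPred_eq]
    linarith

end Pool.Agent.H14.LS
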