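import Pool.Agent.H14.LS.Main1

/-!
Module MAIN, part 2: the pieces.
-/

set_option autoImplicit false

namespace Pool.Agent.H14.LS

open MeasureTheory Set FourierTransform Filter
open scoped ENNReal NNReal SchwartzMap Topology
open Pool.Agent.H83.LS

theorem chi_Sm : Sm (fun s => ((chi s : ℝ) : ℂ)) := by
  refine ⟨Complex.ofRealCLM.contDiff.comp chi_smooth, fun s hs => ?_⟩
  have h1 : chi s ≠ 0 := by
    intro h; apply hs; simp [h]
  have := chi_supp h1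
  constructor <;> linarith

theorem far_bound (hR : T_RADL) (hYG : T_YG) {n : ℕ} (hn : 2 ≤ n) : ∃ C : ℝ≥0,
    ∀ (p lam t : ℝ) (f : EE (n + 1) → ℂ), 1 ≤ p → 1 ≤ lam → t ∈ Icc (1 : ℝ) 2 → Measurable f →
    ∫⁻ x, (∫⁻ y, {z : EE (n + 1) | 4 ≤ ‖z‖}.indicator (fun z => ‖MK (mT lam t) z‖ₑ) (x - y) *
      ‖f y‖ₑ) ^ p ≤ (C : ℝ≥0∞) ^ p * ∫⁻ x, ‖f x‖ₑ ^ p := by
  obtain ⟨M, C, hC⟩ := hR (n + 1) (by omega)
  obtain ⟨B, hB0, hB⟩ := fam_CB chi_Sm 0 M
  have hB1 : CB M B (fun s => ((chi s : ℝ) : ℂ)) := by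
    have h1 := hB 0 ⟨le_rfl, zero_le_one⟩
    have h2 : fam (fun s => ((chi s : ℝ) : ℂ)) 0 0 = fun s => ((chi s : ℝ) : ℂ) := by
      funext s
      simp [fam]
    rwa [h2] at h1
  refine ⟨Real.toNNReal (C * B), ?_⟩
  intro p lam t f hp hl ht hf
  have h1 := (hC _ B lam t hB1 (by linarith) (by linarith [ht.1])).2 hl ht.2
  have hrk : rk (d := n + 1) (fun s => ((chi s : ℝ) : ℂ)) lam t = MK (mT lam t) := by
    funext x; rfl
  rw [hrk] at h1
  have hs : MeasurableSet {z : EE (n + 1) | 4 ≤ ‖z‖} :=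
    measurableSet_le measurable_const measurable_norm
  have hk : Measurable ({z : EE (n + 1) | 4 ≤ ‖z‖}.indicator (fun z => ‖MK (mT lam t) z‖ₑ)) :=
    ((MK_continuous (mT_int (by linarith) t)).measurable.enorm).indicator hs
  refine le_trans (hYG (EE (n + 1)) volume _ (fun x => ‖f x‖ₑ) p hk hf.enorm hp) ?_
  gcongr
  rw [lintegral_indicator hs]
  exact h1

theorem pow_split {d : ℕ} {p D : ℝ} (hp : 2 < p) (hD : 0 ≤ D) {g : EE d → ℂ}
    (hg : ∀ x, ‖g x‖ₑ ≤ ENNReal.ofReal D) :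
    ∫⁻ x, ‖g x‖ₑ ^ p ≤ ENNReal.ofReal (D ^ (p - 2)) * ∫⁻ x, ‖g x‖ₑ ^ 2 := by
  rw [← lintegral_const_mul' _ _ ENNReal.ofReal_ne_top]
  refine lintegral_mono fun x => ?_
  have h1 : ‖g x‖ₑ ^ p = ‖g x‖ₑ ^ (p - 2) * ‖g x‖ₑ ^ 2 := by
    rw [← ENNReal.rpow_natCast, ← ENNReal.rpow_add_of_nonneg _ _ (by linarith) (by norm_num)]
    congr 1; push_cast; ring
  rw [h1]
  gcongr
  rw [← ENNReal.ofReal_rpow_of_nonneg hD (by linarith)]
  exact ENNReal.rpow_le_rpow (hg x) (by linarith)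

theorem fin_sum_pow {p : ℝ} (hp : 1 ≤ p) (N : ℕ) (b : ℕ → ℝ≥0∞) :
    (∑ j ∈ Finset.range N, b j) ^ p ≤ (N : ℝ≥0∞) ^ p * ∑ j ∈ Finset.range N, b j ^ p := by
  have hp0 : 0 < p := by linarith
  set T := ∑ j ∈ Finset.range N, b j ^ p with hT
  have h1 : ∀ j ∈ Finset.range N, b j ≤ T ^ (1 / p) := by
    intro j hj
    have h2 : b j ^ p ≤ T := Finset.single_le_sum (f := fun j => b j ^ p) (fun _ _ => by positivity) hj
    have h3 := ENNReal.rpow_le_rpow h2 (by positivity : 0 ≤ 1 / p)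
    rwa [← ENNReal.rpow_mul, mul_one_div_cancel hp0.ne', ENNReal.rpow_one] at h3
  have h4 := Finset.sum_le_card_nsmul _ _ _ h1
  rw [Finset.card_range, nsmul_eq_mul] at h4
  refine le_trans (ENNReal.rpow_le_rpow h4 hp0.le) ?_
  rw [ENNReal.mul_rpow_of_nonneg _ _ hp0.le, ← ENNReal.rpow_mul, one_div_mul_cancel hp0.ne',
    ENNReal.rpow_one]

/-- the low symbol -/
noncomputable def m0 (n : ℕ) (lam t : ℝ) (ξ : EE (n + 1)) : ℂ :=
  e (t * ‖ξ‖) * ((chi (‖ξ‖ / lam) * eta0 (hor ξ) : ℝ) : ℂ)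

/-- the pieces -/
noncomputable def mj (n : ℕ) (lam Lam t : ℝ) (ξ : EE (n + 1)) : ℂ :=
  e (t * ‖ξ‖) * ((chi (‖ξ‖ / lam) * chi (hor ξ / Lam) : ℝ) : ℂ)

theorem m0_meas (n : ℕ) (lam : ℝ) : Measurable fun q : ℝ × EE (n + 1) => m0 n lam q.1 q.2 := by
  unfold m0
  apply Measurable.mul
  · exact measurable_e.comp (by fun_prop)
  · apply Complex.measurable_ofReal.comp
    apply Measurable.mul
    · exact chi_smooth.continuous.measurable.comp (by fun_prop)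
    · exact eta0_smooth.continuous.measurable.comp (hor_cont.measurable.comp measurable_snd)

theorem mj_meas (n : ℕ) (lam Lam : ℝ) :
    Measurable fun q : ℝ × EE (n + 1) => mj n lam Lam q.1 q.2 := by
  unfold mj
  apply Measurable.mul
  · exact measurable_e.comp (by fun_prop)
  · apply Complex.measurable_ofReal.comp
    apply Measurable.mul
    · exact chi_smooth.continuous.measurable.comp (by fun_prop)
    · exact chi_smooth.continuous.measurable.comp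
        ((hor_cont.measurable.comp measurable_snd).div_const _)

theorem m0_meas' (n : ℕ) (lam t : ℝ) : Measurable (m0 n lam t) :=
  (m0_meas n lam).comp (measurable_prodMk_left (x := t))

theorem mj_meas' (n : ℕ) (lam Lam t : ℝ) : Measurable (mj n lam Lam t) :=
  (mj_meas n lam Lam).comp (measurable_prodMk_left (x := t))

theorem m0_le (n : ℕ) (lam t : ℝ) (ξ : EE (n + 1)) : ‖m0 n lam t ξ‖ ≤ ‖mT lam t ξ‖ := by
  unfold m0 mT
  rw [norm_mul, norm_mul, norm_e, Complex.norm_real, Complex.norm_real, norm_mul, one_mul, one_mul]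
  have h1 : ‖eta0 (hor ξ)‖ ≤ 1 := by
    rw [Real.norm_of_nonneg (eta0_nonneg _)]; exact eta0_le_one _
  exact mul_le_of_le_one_right (norm_nonneg _) h1

theorem mj_le (n : ℕ) (lam Lam t : ℝ) (ξ : EE (n + 1)) : ‖mj n lam Lam t ξ‖ ≤ ‖mT lam t ξ‖ := by
  unfold mj mT
  rw [norm_mul, norm_mul, norm_e, Complex.norm_real, Complex.norm_real, norm_mul, one_mul, one_mul]
  have h1 : ‖chi (hor ξ / Lam)‖ ≤ 1 := by
    rw [Real.norm_eq_abs]; exact chi_abs_le _
  exact mul_le_of_le_one_right (norm_nonneg _) h1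

theorem m0_int (n : ℕ) {lam : ℝ} (hl : 0 < lam) (t : ℝ) : Integrable (m0 n lam t) :=
  (mT_int hl t).norm.mono' (m0_meas' n lam t).aestronglyMeasurable
    (Eventually.of_forall fun ξ => m0_le n lam t ξ)

theorem mj_int (n : ℕ) {lam : ℝ} (hl : 0 < lam) (Lam t : ℝ) : Integrable (mj n lam Lam t) :=
  (mT_int hl t).norm.mono' (mj_meas' n lam Lam t).aestronglyMeasurable
    (Eventually.of_forall fun ξ => mj_le n lam Lam t ξ)

theorem sym_int2 {d : ℕ} {m g : EE d → ℂ} (hm : Integrable m) (hg : Integrable g) (x : EE d) :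
    Integrable fun ξ => e (inner ℝ x ξ) * (m ξ * 𝓕 g ξ) := by
  have h1 : Integrable fun ξ => m ξ * 𝓕 g ξ := by
    have h2 := hm.bdd_mul (c := ∫ y, ‖g y‖) (fourier_meas' hg).aestronglyMeasurable
      (Eventually.of_forall fun ξ => by
        rw [ff_eq]
        refine le_trans (norm_integral_le_integral_norm _) (le_of_eq ?_)
        congr 1; ext y
        rw [norm_mul, norm_e, one_mul])
    refine h2.congr (Eventually.of_forall fun ξ => ?_)
    simp only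
    ring
  exact h1.bdd_mul (c := 1) (measurable_char x).aestronglyMeasurable
    (Eventually.of_forall fun ξ => (norm_e _).le)

theorem split_pt {n : ℕ} {lam t : ℝ} (hl : 0 < lam) {M : ℕ} (hM : 2 * lam ≤ 2 ^ M)
    {g : EE (n + 1) → ℂ} (hg : Integrable g) (x : EE (n + 1)) :
    MM (mT lam t) g x = MM (m0 n lam t) g x +
      ∑ j ∈ Finset.range M, MM (mj n lam (2 ^ (j + 1)) t) g x := by
  unfold MM
  rw [← integral_finsetSum _ (fun j _ => sym_int2 (mj_int n hl _ t) hg x),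
    ← integral_add (sym_int2 (m0_int n hl t) hg x)
      (integrable_finsetSum _ (fun j _ => sym_int2 (mj_int n hl _ t) hg x))]
  congr 1; ext ξ
  have h1 : ∑ j ∈ Finset.range M, e (inner ℝ x ξ) * (mj n lam (2 ^ (j + 1)) t ξ * 𝓕 g ξ) =
      e (inner ℝ x ξ) * (e (t * ‖ξ‖) * ((chi (‖ξ‖ / lam) * ∑ j ∈ Finset.range M,
        chi (hor ξ / 2 ^ (j + 1)) : ℝ) : ℂ) * 𝓕 g ξ) := by
    unfold mj
    rw [← Finset.mul_sum, ← Finset.sum_mul, ← Finset.mul_sum, ← Complex.ofReal_sum,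
      ← Finset.mul_sum]
  rw [h1]
  unfold m0 mT
  by_cases hc : chi (‖ξ‖ / lam) = 0
  · rw [hc]; simp
  · have h2 := (chi_supp hc).2
    rw [div_le_iff₀ hl] at h2
    have h3 : hor ξ / 2 ^ M ≤ 1 := by
      rw [div_le_one (by positivity)]
      exact le_trans (hor_le ξ) (le_trans h2 hM)
    have h4 := lp_sum (hor ξ) M
    rw [eta0_one h3] at h4
    have h5 : ((eta0 (hor ξ) : ℝ) : ℂ) + ((∑ j ∈ Finset.range M,
        chi (hor ξ / 2 ^ (j + 1)) : ℝ) : ℂ) = 1 := by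
      rw [← Complex.ofReal_add, h4]; simp
    rw [Complex.ofReal_mul (chi (‖ξ‖ / lam)), Complex.ofReal_mul (chi (‖ξ‖ / lam))]
    generalize ((∑ j ∈ Finset.range M, chi (hor ξ / 2 ^ (j + 1)) : ℝ) : ℂ) = X at h5 ⊢
    linear_combination (-(e (inner ℝ x ξ)) * e (t * ‖ξ‖) * (chi (‖ξ‖ / lam) : ℂ) * 𝓕 g ξ) * h5

theorem low_piece (hLX : T_LOWX) (hPL : T_PLE) {n : ℕ} (hn : 2 ≤ n) : ∃ C : ℝ≥0,
    ∀ (p lam t A : ℝ) (f : EE (n + 1) → ℂ), 2 < p → 1 ≤ lam → t ∈ Icc (1 : ℝ) 2 → BCd A f →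
    ∫⁻ x, ‖MM (m0 n lam t) f x‖ₑ ^ p ≤
      ENNReal.ofReal (((C : ℝ) * A) ^ (p - 2)) * ∫⁻ x, ‖f x‖ₑ ^ 2 := by
  obtain ⟨C, hC⟩ := hLX n hn
  refine ⟨C, ?_⟩
  intro p lam t A f hp hl ht hf
  have hA := bcd_nonneg hf
  have hl0 : 0 < lam := by linarith
  obtain ⟨h1, h2⟩ := hPL (n + 1) (m0 n lam t) f (m0_meas' n lam t)
    (fun ξ => le_trans (m0_le n lam t ξ) (mT_norm lam t ξ)) (m0_int n hl0 t) (bcd_int hf)
    ⟨A, hf.2.1⟩ hf.1
  have h3 : ∀ x, ‖MM (m0 n lam t) f x‖ₑ ≤ ENNReal.ofReal ((C : ℝ) * A) := by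
    intro x
    rw [h1]
    refine le_trans (enorm_integral_le_lintegral_enorm _) ?_
    calc ∫⁻ y, ‖MK (m0 n lam t) (x - y) * f y‖ₑ
        ≤ ∫⁻ y, ‖MK (m0 n lam t) (x - y)‖ₑ * ENNReal.ofReal A := by
          refine lintegral_mono fun y => ?_
          rw [enorm_mul]
          gcongr
          rw [← ofReal_norm]
          exact ENNReal.ofReal_le_ofReal (hf.2.1 y)
      _ = (∫⁻ y, ‖MK (m0 n lam t) y‖ₑ) * ENNReal.ofReal A := by
          rw [lintegral_mul_const' _ _ ENNReal.ofReal_ne_top,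
            lintegral_sub_left_eq_self (fun y => ‖MK (m0 n lam t) y‖ₑ) x]
      _ ≤ C * ENNReal.ofReal A := by
          gcongr
          exact hC lam t hl ht
      _ = _ := by
          rw [ENNReal.ofReal_mul (by positivity), ENNReal.ofReal_coe_nnreal]
  refine le_trans (pow_split hp (by positivity) h3) ?_
  gcongr

end Pool.Agent.H14.LS
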