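import Pool.Agent.H14.LS.Main2

/-!
Module MAIN, part 3: assembly.
-/

set_option autoImplicit false

namespace Pool.Agent.H14.LS

open MeasureTheory Set FourierTransform Filter
open scoped ENNReal NNReal SchwartzMap Topology
open Pool.Agent.H83.LS

theorem count {η q : ℝ} (hη : 0 < η) (hq : 1 ≤ q) : ∃ C : ℝ≥0, ∀ lam : ℝ, 1 ≤ lam →
    ∃ M : ℕ, 2 * lam ≤ 2 ^ M ∧ (2 : ℝ) ^ M ≤ 4 * lam ∧
      ((M : ℝ) + 1) ^ q ≤ (C : ℝ) * lam ^ η := by
  set ε : ℝ := η / q with hε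
  have hε0 : 0 < ε := by positivity
  have hlog : 0 < Real.log 2 := Real.log_pos (by norm_num)
  set c : ℝ := 2 + 1 / (ε * Real.log 2) with hc
  have hc0 : 0 < c := by positivity
  refine ⟨Real.toNNReal (c ^ q * 2 ^ η), ?_⟩
  intro lam hl
  obtain ⟨k, hk1, hk2⟩ := exists_nat_pow_near (x := 2 * lam) (y := (2 : ℝ)) (by linarith) (by norm_num)
  refine ⟨k + 1, hk2.le, ?_, ?_⟩
  · rw [pow_succ]; linarith
  · rw [Real.coe_toNNReal _ (by positivity)]
    have h1 : (k : ℝ) * Real.log 2 ≤ Real.log (2 * lam) := by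
      rw [← Real.log_pow]
      exact Real.log_le_log (by positivity) hk1
    have h2 := Real.log_le_rpow_div (x := 2 * lam) (by linarith) hε0
    have h3 : (k : ℝ) ≤ (2 * lam) ^ ε / (ε * Real.log 2) := by
      rw [le_div_iff₀ (by positivity)]
      rw [le_div_iff₀ hε0] at h2
      nlinarith
    have h4 : 1 ≤ (2 * lam) ^ ε := Real.one_le_rpow (by linarith) hε0.le
    have h5 : ((k + 1 : ℕ) : ℝ) + 1 ≤ c * (2 * lam) ^ ε := by
      rw [hc, add_mul, one_div_mul_eq_div]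
      push_cast
      linarith
    calc (((k + 1 : ℕ) : ℝ) + 1) ^ q ≤ (c * (2 * lam) ^ ε) ^ q :=
          Real.rpow_le_rpow (by positivity) h5 (by linarith)
      _ = c ^ q * (2 * lam) ^ η := by
          rw [Real.mul_rpow hc0.le (by positivity), ← Real.rpow_mul (by positivity), hε,
            div_mul_cancel₀ _ (by positivity)]
      _ = c ^ q * 2 ^ η * lam ^ η := by
          rw [Real.mul_rpow (by norm_num) (by linarith), mul_assoc]

theorem axial_ind {n i : ℕ} {f : EE (n + 1) → ℂ} (hf : Axial f) :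
    Axial ((Nb n i).indicator f) := by
  intro x y h1 h2
  have h3 := hor_eq_of h1 h2
  have h4 : x ∈ Nb n i ↔ y ∈ Nb n i := by
    unfold Nb
    rw [mem_ofPred_eq, mem_ofPred_eq, h3]
  by_cases hx : x ∈ Nb n i
  · rw [indicator_of_mem hx, indicator_of_mem (h4.mp hx), hf x y h1 h2]
  · rw [indicator_of_notMem hx, indicator_of_notMem (fun h => hx (h4.mpr h))]

/-- the pieces on the shell `i` -/
theorem piece_shell (hP : T_PIECE) {n : ℕ} {p η : ℝ} (hn : 2 ≤ n) (hp2 : 2 < p)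
    (hp : p ≤ 2 + 2 / (n : ℝ)) (hη : 0 < η) : ∃ C : ℝ≥0,
    ∀ (i : ℕ) (lam Lam A : ℝ) (f : EE (n + 1) → ℂ), 1 ≤ lam → 1 ≤ Lam → Lam ≤ 4 * lam →
    Axial f → BCd A f →
    ∫⁻ t in Icc (1 : ℝ) 2, ∫⁻ x in Sh n i, ‖MM (mj n lam Lam t) ((Nb n i).indicator f) x‖ₑ ^ p ≤
      C * ENNReal.ofReal (lam ^ η * A ^ (p - 2)) * ∫⁻ x, ‖(Nb n i).indicator f x‖ₑ ^ 2 := by
  obtain ⟨C, hC⟩ := hP n p η hn hp2 hp hη
  refine ⟨C, ?_⟩
  intro i lam Lam A f hl hL hL2 hax hf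
  obtain ⟨h1, h2⟩ := hC lam Lam A ((Nb n i).indicator f) hl hL hL2 (axial_ind hax)
    (bcd_ind hf (Nb_meas n i))
  have hsup : ∀ x, (Nb n i).indicator f x ≠ 0 → x ∈ Nb n i := by
    intro x hx
    by_contra h
    exact hx (indicator_of_notMem h f)
  rcases lt_or_ge i 2 with hi | hi
  · refine le_trans (lintegral_mono fun t => setLIntegral_le_lintegral _ _) (h1 ?_)
    intro x hx
    have h3 := (hsup x hx).2
    have h4 : (i : ℝ) ≤ 1 := by
      have : i ≤ 1 := by omega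
      exact_mod_cast this
    linarith
  · refine le_trans (lintegral_mono fun t => lintegral_mono_set ?_) (h2 i hi ?_)
    · intro x hx
      exact ⟨hx.1, hx.2.le⟩
    · intro x hx
      exact ⟨(hsup x hx).1, (hsup x hx).2.le⟩

theorem shell_bound (hP : T_PIECE) (hLX : T_LOWX) (hPL : T_PLE) {n : ℕ} {p η : ℝ} (hn : 2 ≤ n)
    (hp2 : 2 < p) (hp : p ≤ 2 + 2 / (n : ℝ)) (hη : 0 < η) : ∃ C₀ C₁ : ℝ≥0,
    ∀ (i M : ℕ) (lam A : ℝ) (f : EE (n + 1) → ℂ), 1 ≤ lam → 2 * lam ≤ 2 ^ M →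
    (2 : ℝ) ^ M ≤ 4 * lam → Axial f → BCd A f →
    ∫⁻ t in Icc (1 : ℝ) 2, ∫⁻ x in Sh n i, ‖MM (mT lam t) ((Nb n i).indicator f) x‖ₑ ^ p ≤
      ((M + 1 : ℕ) : ℝ≥0∞) ^ p * ((ENNReal.ofReal (((C₀ : ℝ) * A) ^ (p - 2)) +
        M * (C₁ * ENNReal.ofReal (lam ^ η * A ^ (p - 2)))) *
        ∫⁻ x, ‖(Nb n i).indicator f x‖ₑ ^ 2) := by
  obtain ⟨C₀, hC₀⟩ := low_piece hLX hPL hn
  obtain ⟨C₁, hC₁⟩ := piece_shell hP hn hp2 hp hη
  refine ⟨C₀, C₁, ?_⟩
  intro i M lam A f hl hM1 hM2 hax hf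
  have hl0 : 0 < lam := by linarith
  have hp0 : 0 ≤ p := by linarith
  set g : EE (n + 1) → ℂ := (Nb n i).indicator f with hg
  have hgB : BCd A g := bcd_ind hf (Nb_meas n i)
  have hgI := bcd_int hgB
  obtain ⟨b, hb0, hbs⟩ : ∃ b : ℕ → ℝ → EE (n + 1) → ℝ≥0∞,
      (∀ t x, b 0 t x = ‖MM (m0 n lam t) g x‖ₑ) ∧
      (∀ j t x, b (j + 1) t x = ‖MM (mj n lam (2 ^ (j + 1)) t) g x‖ₑ) :=
    ⟨fun j t x => Nat.casesOn j (‖MM (m0 n lam t) g x‖ₑ)
      (fun j => ‖MM (mj n lam (2 ^ (j + 1)) t) g x‖ₑ), fun _ _ => rfl, fun _ _ _ => rfl⟩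
  have hbm : ∀ j, Measurable fun q : ℝ × EE (n + 1) => b j q.1 q.2 ^ p := by
    intro j
    rcases j with _ | j
    · simp_rw [hb0]
      exact (MM_meas (m0_meas n lam) (fourier_meas' hgI)).enorm.pow_const _
    · simp_rw [hbs]
      exact (MM_meas (mj_meas n lam _) (fourier_meas' hgI)).enorm.pow_const _
  have hpt : ∀ t x, ‖MM (mT lam t) g x‖ₑ ^ p ≤
      ((M + 1 : ℕ) : ℝ≥0∞) ^ p * ∑ j ∈ Finset.range (M + 1), b j t x ^ p := by
    intro t x
    refine le_trans (ENNReal.rpow_le_rpow ?_ hp0)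
      (fin_sum_pow (by linarith) (M + 1) (fun j => b j t x))
    rw [split_pt hl0 hM1 hgI x, Finset.sum_range_succ', add_comm]
    refine le_trans (enorm_add_le _ _) ?_
    rw [hb0]
    refine add_le_add ?_ le_rfl
    refine le_trans (enorm_sum_le _ _) (le_of_eq ?_)
    refine Finset.sum_congr rfl fun j _ => ?_
    rw [hbs]
  have hc : ((M + 1 : ℕ) : ℝ≥0∞) ^ p ≠ ⊤ :=
    ENNReal.rpow_ne_top_of_nonneg hp0 (ENNReal.natCast_ne_top _)
  calc ∫⁻ t in Icc (1 : ℝ) 2, ∫⁻ x in Sh n i, ‖MM (mT lam t) g x‖ₑ ^ p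
      ≤ ∫⁻ t in Icc (1 : ℝ) 2, ∫⁻ x in Sh n i,
          ((M + 1 : ℕ) : ℝ≥0∞) ^ p * ∑ j ∈ Finset.range (M + 1), b j t x ^ p :=
        lintegral_mono fun t => lintegral_mono fun x => hpt t x
    _ = ((M + 1 : ℕ) : ℝ≥0∞) ^ p * ∑ j ∈ Finset.range (M + 1),
          ∫⁻ t in Icc (1 : ℝ) 2, ∫⁻ x in Sh n i, b j t x ^ p := by
        simp_rw [lintegral_const_mul' _ _ hc]
        congr 1
        have e1 : ∀ t, ∫⁻ x in Sh n i, ∑ j ∈ Finset.range (M + 1), b j t x ^ p =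
            ∑ j ∈ Finset.range (M + 1), ∫⁻ x in Sh n i, b j t x ^ p := fun t =>
          lintegral_finsetSum _ fun j _ => (hbm j).comp (measurable_prodMk_left (x := t))
        simp_rw [e1]
        exact lintegral_finsetSum _ fun j _ =>
          (hbm j).lintegral_prod_right' (ν := volume.restrict (Sh n i))
    _ ≤ _ := by
        refine mul_le_mul_right ?_ _
        rw [Finset.sum_range_succ', add_comm, add_mul]
        refine add_le_add ?_ ?_
        · calc ∫⁻ t in Icc (1 : ℝ) 2, ∫⁻ x in Sh n i, b 0 t x ^ p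
              ≤ ∫⁻ t in Icc (1 : ℝ) 2, ENNReal.ofReal (((C₀ : ℝ) * A) ^ (p - 2)) *
                ∫⁻ x, ‖g x‖ₑ ^ 2 := by
                simp_rw [hb0]
                apply setLIntegral_mono' measurableSet_Icc
                intro t ht
                exact le_trans (setLIntegral_le_lintegral _ _) (hC₀ p lam t A g hp2 hl ht hgB)
            _ = _ := by
                rw [setLIntegral_const, Real.volume_Icc]
                norm_num
        · refine le_trans (Finset.sum_le_card_nsmul _ _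
            (C₁ * ENNReal.ofReal (lam ^ η * A ^ (p - 2)) * ∫⁻ x, ‖g x‖ₑ ^ 2) ?_) ?_
          · intro j hj
            rw [Finset.mem_range] at hj
            have h1 : (1 : ℝ) ≤ 2 ^ (j + 1) := one_le_pow₀ (by norm_num)
            have h2 : (2 : ℝ) ^ (j + 1) ≤ 4 * lam :=
              le_trans (pow_le_pow_right₀ (by norm_num) (by omega)) hM2
            simp_rw [hbs]
            exact hC₁ i lam (2 ^ (j + 1)) A f hl h1 h2 hax hf
          · rw [Finset.card_range, nsmul_eq_mul, mul_assoc, mul_assoc, mul_assoc]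

theorem main (hP : T_PIECE) (hLX : T_LOWX) (hR : T_RADL) (hPL : T_PLE) (hYG : T_YG) :
    T_MAIN := by
  intro n p η hn hp2 hp hη
  have hp0 : 0 ≤ p := by linarith
  obtain ⟨C₀, C₁, hS⟩ := shell_bound hP hLX hPL hn hp2 hp (η := η / 2) (by positivity)
  obtain ⟨C₂, hF⟩ := far_bound hR hYG hn
  obtain ⟨C₃, hC₃⟩ := count (η := η / 2) (q := p + 1) (by positivity) (by linarith)
  refine ⟨2 ^ (p - 1) * (C₂ ^ p + 3 * (C₃ * (C₀ ^ (p - 2) + C₁))), ?_⟩
  intro lam A f hl hax hf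
  have hl0 : 0 < lam := by linarith
  have hA := bcd_nonneg hf
  obtain ⟨M, hM1, hM2, hM3⟩ := hC₃ lam hl
  set G : ℝ≥0∞ := ∫⁻ x, ‖f x‖ₑ ^ 2 with hG
  set fi : ℕ → EE (n + 1) → ℂ := fun i => (Nb n i).indicator f with hfi
  set far : ℝ → EE (n + 1) → ℝ≥0∞ := fun t x =>
    ∫⁻ y, {z : EE (n + 1) | 4 ≤ ‖z‖}.indicator (fun z => ‖MK (mT lam t) z‖ₑ) (x - y) * ‖f y‖ₑ
    with hfar
  have hmeas : ∀ i, Measurable fun q : ℝ × EE (n + 1) => ‖MM (mT lam q.1) (fi i) q.2‖ₑ ^ p :=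
    fun i => (MM_meas (mT_meas lam) (fourier_meas' (bcd_int (bcd_ind hf (Nb_meas n i))))).enorm.pow_const _
  have hpt : ∀ t x, ‖MM (mT lam t) f x‖ₑ ^ p ≤ 2 ^ (p - 1) * (far t x ^ p +
      ∑' i, (Sh n i).indicator (fun x => ‖MM (mT lam t) (fi i) x‖ₑ ^ p) x) := by
    intro t x
    obtain ⟨k, hk⟩ := exists_shell x
    have h1 := (loc_pt (t := t) hl0 hf hk).trans_eq (add_comm _ _)
    refine le_trans (ENNReal.rpow_le_rpow h1 hp0) ?_
    refine le_trans (ENNReal.rpow_add_le_mul_rpow_add_rpow _ _ (by linarith)) ?_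
    gcongr
    have h2 : ‖MM (mT lam t) (fi k) x‖ₑ ^ p =
        (Sh n k).indicator (fun x => ‖MM (mT lam t) (fi k) x‖ₑ ^ p) x := by
      rw [indicator_of_mem hk]
    rw [h2]
    exact ENNReal.le_tsum (f := fun i => (Sh n i).indicator
      (fun x => ‖MM (mT lam t) (fi i) x‖ₑ ^ p) x) k
  have h2p : (2 : ℝ≥0∞) ^ (p - 1) ≠ ⊤ := ENNReal.rpow_ne_top_of_nonneg (by linarith) (by norm_num)
  have hstep : ∀ t ∈ Icc (1 : ℝ) 2, ∫⁻ x, ‖MM (mT lam t) f x‖ₑ ^ p ≤ 2 ^ (p - 1) *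
      ((C₂ : ℝ≥0∞) ^ p * (ENNReal.ofReal (A ^ (p - 2)) * G) +
        ∑' i, ∫⁻ x in Sh n i, ‖MM (mT lam t) (fi i) x‖ₑ ^ p) := by
    intro t ht
    refine le_trans (lintegral_mono fun x => hpt t x) ?_
    rw [lintegral_const_mul' _ _ h2p]
    refine mul_le_mul_right ?_ _
    have hm2 : Measurable fun x => ∑' i, (Sh n i).indicator
        (fun x => ‖MM (mT lam t) (fi i) x‖ₑ ^ p) x := by
      refine Measurable.tsum fun i => ?_
      exact ((hmeas i).comp (measurable_prodMk_left (x := t))).indicator (Sh_meas n i)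
    rw [lintegral_add_right _ hm2]
    refine add_le_add ?_ (le_of_eq ?_)
    · refine le_trans (hF p lam t f (by linarith) hl ht hf.1) ?_
      refine mul_le_mul_right (pow_split hp2 hA fun x => ?_) _
      rw [← ofReal_norm]
      exact ENNReal.ofReal_le_ofReal (hf.2.1 x)
    · rw [lintegral_tsum]
      · congr 1; funext i
        rw [lintegral_indicator (Sh_meas n i)]
      · intro i
        exact (((hmeas i).comp (measurable_prodMk_left (x := t))).indicator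
          (Sh_meas n i)).aemeasurable
  have hGi : ∑' i, ∫⁻ x, ‖fi i x‖ₑ ^ 2 ≤ 3 * G := by
    rw [← lintegral_tsum]
    · rw [hG, ← lintegral_const_mul' _ _ (by norm_num)]
      refine lintegral_mono fun x => ?_
      refine le_trans (le_of_eq ?_) (overlap x (‖f x‖ₑ ^ 2))
      congr 1; funext i
      rw [hfi]
      by_cases hx : x ∈ Nb n i
      · simp only [indicator_of_mem hx]
      · simp [indicator_of_notMem hx]
    · intro i
      exact ((hf.1.indicator (Nb_meas n i)).enorm.pow_const 2).aemeasurable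
  have hmain : ∫⁻ t in Icc (1 : ℝ) 2, ∫⁻ x, ‖MM (mT lam t) f x‖ₑ ^ p ≤ 2 ^ (p - 1) *
      ((C₂ : ℝ≥0∞) ^ p * (ENNReal.ofReal (A ^ (p - 2)) * G) +
        ((M + 1 : ℕ) : ℝ≥0∞) ^ p * ((ENNReal.ofReal (((C₀ : ℝ) * A) ^ (p - 2)) +
        M * (C₁ * ENNReal.ofReal (lam ^ (η / 2) * A ^ (p - 2)))) * (3 * G))) := by
    refine le_trans (setLIntegral_mono' measurableSet_Icc hstep) ?_
    rw [lintegral_const_mul' _ _ h2p]
    refine mul_le_mul_right ?_ _
    have hm3 : Measurable fun t => ∑' i, ∫⁻ x in Sh n i, ‖MM (mT lam t) (fi i) x‖ₑ ^ p :=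
      Measurable.tsum fun i => (hmeas i).lintegral_prod_right'
    rw [lintegral_add_right _ hm3]
    refine add_le_add (le_of_eq ?_) ?_
    · rw [setLIntegral_const, Real.volume_Icc]
      norm_num
    · rw [lintegral_tsum fun i => ((hmeas i).lintegral_prod_right').aemeasurable]
      refine le_trans (ENNReal.tsum_le_tsum fun i => hS i M lam A f hl hM1 hM2 hax hf) ?_
      rw [ENNReal.tsum_mul_left, ENNReal.tsum_mul_left]
      gcongr
  refine le_trans hmain ?_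
  set a : ℝ≥0∞ := ENNReal.ofReal (A ^ (p - 2)) with ha
  set L : ℝ≥0∞ := ENNReal.ofReal (lam ^ (η / 2)) with hL
  have hL1 : 1 ≤ L := by
    rw [hL, ENNReal.one_le_ofReal]
    exact Real.one_le_rpow hl (by positivity)
  have hLL : ENNReal.ofReal (lam ^ η * A ^ (p - 2)) = L * L * a := by
    rw [hL, ha, ← ENNReal.ofReal_mul (by positivity), ← ENNReal.ofReal_mul (by positivity),
      ← Real.rpow_add hl0]
    congr 3; ring
  have h1 : ENNReal.ofReal (((C₀ : ℝ) * A) ^ (p - 2)) = (C₀ : ℝ≥0∞) ^ (p - 2) * a := by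
    rw [Real.mul_rpow (by positivity) hA, ENNReal.ofReal_mul (by positivity),
      ← ENNReal.ofReal_rpow_of_nonneg (by positivity) (by linarith), ENNReal.ofReal_coe_nnreal]
  have h2 : ENNReal.ofReal (lam ^ (η / 2) * A ^ (p - 2)) = L * a := by
    rw [ENNReal.ofReal_mul (by positivity)]
  set N : ℝ≥0∞ := ((M + 1 : ℕ) : ℝ≥0∞) with hN
  have hMN : (M : ℝ≥0∞) ≤ N := by rw [hN]; exact_mod_cast Nat.le_succ M
  have hN1 : 1 ≤ N := by rw [hN]; exact_mod_cast Nat.succ_le_succ (Nat.zero_le M)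
  have hNp : N ^ p * N ≤ C₃ * L := by
    have h3 : N ^ p * N = N ^ (p + 1) := by
      rw [ENNReal.rpow_add_of_nonneg _ _ hp0 (by norm_num), ENNReal.rpow_one]
    have h4 : N = ENNReal.ofReal ((M : ℝ) + 1) := by
      rw [hN, ENNReal.ofReal_add (by positivity) (by norm_num)]
      simp
    rw [h3, h4, ENNReal.ofReal_rpow_of_nonneg (by positivity) (by linarith), hL,
      ← ENNReal.ofReal_coe_nnreal (p := C₃), ← ENNReal.ofReal_mul (by positivity)]
    exact ENNReal.ofReal_le_ofReal hM3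
  rw [hLL, h1, h2]
  have e1 : ((2 ^ (p - 1) * (C₂ ^ p + 3 * (C₃ * (C₀ ^ (p - 2) + C₁))) : ℝ≥0) : ℝ≥0∞) =
      2 ^ (p - 1) * ((C₂ : ℝ≥0∞) ^ p + 3 * (C₃ * ((C₀ : ℝ≥0∞) ^ (p - 2) + C₁))) := by
    rw [ENNReal.coe_mul, ENNReal.coe_add, ENNReal.coe_mul, ENNReal.coe_mul, ENNReal.coe_add,
      ENNReal.coe_rpow_of_nonneg _ (by linarith), ENNReal.coe_rpow_of_nonneg _ hp0,
      ENNReal.coe_rpow_of_nonneg _ (by linarith)]
    simp
  rw [e1, mul_assoc, mul_assoc]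
  refine mul_le_mul_right ?_ _
  calc (C₂ : ℝ≥0∞) ^ p * (a * G) + N ^ p * (((C₀ : ℝ≥0∞) ^ (p - 2) * a + M * (C₁ * (L * a))) *
        (3 * G))
      ≤ (C₂ : ℝ≥0∞) ^ p * ((L * L * a) * G) +
        3 * (C₃ * ((C₀ : ℝ≥0∞) ^ (p - 2) + C₁)) * ((L * L * a) * G) := by
        refine add_le_add ?_ ?_
        · gcongr
          calc a = 1 * 1 * a := by ring
            _ ≤ L * L * a := by gcongr
        · calc N ^ p * (((C₀ : ℝ≥0∞) ^ (p - 2) * a + M * (C₁ * (L * a))) * (3 * G))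
              ≤ N ^ p * ((N * ((C₀ : ℝ≥0∞) ^ (p - 2) * (L * a)) + N * (C₁ * (L * a))) *
                (3 * G)) := by
                refine mul_le_mul_right (mul_le_mul_left (add_le_add ?_ ?_) _) _
                · calc (C₀ : ℝ≥0∞) ^ (p - 2) * a = 1 * ((C₀ : ℝ≥0∞) ^ (p - 2) * (1 * a)) := by ring
                    _ ≤ _ := by gcongr
                · gcongr
            _ = (N ^ p * N) * (((C₀ : ℝ≥0∞) ^ (p - 2) + C₁) * (L * a) * (3 * G)) := by ring
            _ ≤ (C₃ * L) * (((C₀ : ℝ≥0∞) ^ (p - 2) + C₁) * (L * a) * (3 * G)) := by gcongr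
            _ = _ := by ring
    _ = _ := by ring

end Pool.Agent.H14.LS
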