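import Pool.Agent.H83.LS.Basic
import Pool.Agent.H83.LS.Targets3

/-!
Fourier multipliers on Schwartz functions and as convolutions.
-/

set_option autoImplicit false

namespace Pool.Agent.H14.LS

open MeasureTheory Set FourierTransform
open scoped ENNReal NNReal SchwartzMap
open Pool.Agent.H83.LS

variable {d : ℕ}

theorem e_inner (x ξ : EE d) : e (inner ℝ x ξ) =
    Complex.exp (((2 * Real.pi * inner ℝ ξ x : ℝ) : ℂ) * Complex.I) := by
  unfold e; rw [real_inner_comm]

theorem MM_eq (m f : EE d → ℂ) (x : EE d) : MM m f x = 𝓕⁻ (fun ξ => m ξ * 𝓕 f ξ) x := by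
  unfold MM
  rw [Real.fourierInv_eq']
  congr 1; ext ξ
  rw [e_inner, smul_eq_mul]

theorem ff_eq (f : EE d → ℂ) (ξ : EE d) : 𝓕 f ξ = ∫ y : EE d, e (-(inner ℝ y ξ)) * f y := by
  rw [Real.fourier_eq']
  congr 1; ext y
  rw [smul_eq_mul]
  unfold e
  congr 3
  push_cast; ring

/-- a Schwartz multiplier -/
theorem schwartz_mult {m : EE d → ℂ} (hm : m.HasTemperateGrowth) (u : 𝓢(EE d, ℂ)) :
    ∃ v : 𝓢(EE d, ℂ), (∀ ξ, 𝓕 (v : EE d → ℂ) ξ = m ξ * 𝓕 (u : EE d → ℂ) ξ) ∧
      ∀ x, v x = MM m u x := by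
  refine ⟨SchwartzMap.fourierMultiplierCLM ℂ m u, ?_, ?_⟩
  · intro ξ
    rw [SchwartzMap.fourierMultiplierCLM_apply, ← SchwartzMap.fourier_coe, FourierTransform.fourier_fourierInv_eq,
      SchwartzMap.smulLeftCLM_apply_apply hm, smul_eq_mul, SchwartzMap.fourier_coe]
  · intro x
    rw [SchwartzMap.fourierMultiplierCLM_apply, MM_eq, SchwartzMap.fourierInv_coe,
      SchwartzMap.smulLeftCLM_apply hm]
    rfl

theorem measurable_char (x : EE d) : Measurable fun ξ : EE d => e (inner ℝ x ξ) :=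
  measurable_e.comp (by fun_prop)

theorem MK_continuous {m : EE d → ℂ} (hm : Integrable m) : Continuous (MK m) := by
  unfold MK
  apply continuous_of_dominated (bound := fun ξ => ‖m ξ‖)
  · intro x
    exact (measurable_char x).aestronglyMeasurable.mul hm.1
  · intro x
    exact Filter.Eventually.of_forall (fun ξ => by rw [norm_mul, norm_e, one_mul])
  · exact hm.norm
  · exact Filter.Eventually.of_forall (fun ξ =>
      (continuous_e.comp (continuous_id.inner continuous_const)).mul continuous_const)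

/-- multipliers are convolutions -/
theorem MM_conv {m g : EE d → ℂ} (hm : Integrable m) (hg : Integrable g) (x : EE d) :
    MM m g x = ∫ y, MK m (x - y) * g y := by
  unfold MM MK
  have h1 : ∀ ξ : EE d, e (inner ℝ x ξ) * (m ξ * 𝓕 g ξ) =
      ∫ y : EE d, e (inner ℝ (x - y) ξ) * m ξ * g y := by
    intro ξ
    rw [ff_eq, ← mul_assoc, ← integral_const_mul]
    congr 1; ext y
    rw [inner_sub_left, sub_eq_add_neg, e_add]
    ring
  simp_rw [h1]
  rw [integral_integral_swap]
  · congr 1; ext y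
    rw [integral_mul_const]
  · have h2 : Integrable (fun p : EE d × EE d => m p.1 * g p.2) (volume.prod volume) :=
      hm.mul_prod hg
    have h3 : Measurable fun p : EE d × EE d => e (inner ℝ (x - p.2) p.1) :=
      measurable_e.comp (by fun_prop)
    have h4 := h2.bdd_mul (c := 1) h3.aestronglyMeasurable
      (Filter.Eventually.of_forall (fun p => (norm_e _).le))
    refine h4.congr (Filter.Eventually.of_forall (fun p => ?_))
    simp only [Function.uncurry]
    ring

/-- `L^p` bounds for multipliers with integrable kernels -/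
theorem MM_young (hYG : T_YG) {m g : EE d → ℂ} (hm : Integrable m) (hg : Integrable g)
    (hgm : Measurable g) {p : ℝ} (hp : 1 ≤ p) :
    ∫⁻ x, ‖MM m g x‖ₑ ^ p ≤ (∫⁻ x, ‖MK m x‖ₑ) ^ p * ∫⁻ x, ‖g x‖ₑ ^ p := by
  have h1 := hYG (EE d) volume (fun x => ‖MK m x‖ₑ) (fun x => ‖g x‖ₑ) p
    (MK_continuous hm).measurable.enorm hgm.enorm hp
  refine le_trans (lintegral_mono fun x => ?_) h1
  apply ENNReal.rpow_le_rpow _ (by linarith)
  rw [MM_conv hm hg]
  refine le_trans (enorm_integral_le_lintegral_enorm _) (le_of_eq ?_)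
  congr 1; ext y
  rw [enorm_mul]

end Pool.Agent.H14.LS
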