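import Pool.Agent.H14.LS.Mult

/-!
Symbol bounds: `κ(s) (a²+4π²s²)^(-ρ/2)` uniformly in `a ∈ [0,1]`.
-/

set_option autoImplicit false

namespace Pool.Agent.H14.LS

open MeasureTheory Set FourierTransform
open scoped ENNReal NNReal SchwartzMap
open Pool.Agent.H83.LS

theorem iter_joint (k : ℕ) : ∀ F : ℝ × ℝ → ℂ, ContDiff ℝ (⊤ : ℕ∞) F →
    ∃ G : ℝ × ℝ → ℂ, ContDiff ℝ (⊤ : ℕ∞) G ∧
      ∀ a s, iteratedDeriv k (fun s => F (a, s)) s = G (a, s) := by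
  induction k with
  | zero => intro F hF; exact ⟨F, hF, fun a s => by simp⟩
  | succ k ih =>
    intro F hF
    obtain ⟨G, hG, hG2⟩ := ih F hF
    refine ⟨fun q => fderiv ℝ G q (0, 1), (hG.fderiv_right (by simp)).clm_apply contDiff_const, ?_⟩
    intro a s
    rw [iteratedDeriv_succ]
    have h1 : iteratedDeriv k (fun s => F (a, s)) = fun s => G (a, s) := by
      ext s; exact hG2 a s
    rw [h1]
    have h2 : DifferentiableAt ℝ G (a, s) := (hG.differentiable (by simp)) _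
    have h3 : HasDerivAt (fun s : ℝ => ((a, s) : ℝ × ℝ)) (0, 1) s :=
      (hasDerivAt_const s a).prodMk (hasDerivAt_id s)
    exact (h2.hasFDerivAt.comp_hasDerivAt s h3).deriv

/-- smooth, supported in `[1/8,8]` -/
def Sm (κ : ℝ → ℂ) : Prop := ContDiff ℝ (⊤ : ℕ∞) κ ∧ ∀ s, κ s ≠ 0 → 1 / 8 ≤ s ∧ s ≤ 8

/-- the family of symbols -/
noncomputable def fam (κ : ℝ → ℂ) (ρ a s : ℝ) : ℂ :=
  κ s * (((a ^ 2 + 4 * Real.pi ^ 2 * s ^ 2) ^ (-ρ / 2) : ℝ) : ℂ)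

theorem fam_smooth {κ : ℝ → ℂ} (hκ : Sm κ) (ρ : ℝ) :
    ContDiff ℝ (⊤ : ℕ∞) (fun q : ℝ × ℝ => fam κ ρ q.1 q.2) := by
  rw [contDiff_iff_contDiffAt]
  rintro ⟨a, s⟩
  by_cases hs : s < 1 / 8
  · have h1 : (fun q : ℝ × ℝ => fam κ ρ q.1 q.2) =ᶠ[nhds (a, s)] fun _ => 0 := by
      have h2 : IsOpen {q : ℝ × ℝ | q.2 < 1 / 8} := isOpen_lt continuous_snd continuous_const
      filter_upwards [h2.mem_nhds hs] with q hq
      have h3 : κ q.2 = 0 := by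
        by_contra h
        have := (hκ.2 _ h).1
        linarith
      simp [fam, h3]
    exact contDiffAt_const.congr_of_eventuallyEq h1
  · push Not at hs
    have hpos : 0 < a ^ 2 + 4 * Real.pi ^ 2 * s ^ 2 := by
      have : 0 < s := by linarith
      positivity
    unfold fam
    apply ContDiffAt.mul
    · exact (hκ.1.comp contDiff_snd).contDiffAt
    · apply Complex.ofRealCLM.contDiff.contDiffAt.comp
      apply ContDiffAt.rpow_const_of_ne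
      · fun_prop
      · exact hpos.ne'

theorem fam_supp {κ : ℝ → ℂ} (hκ : Sm κ) (ρ a s : ℝ) (h : fam κ ρ a s ≠ 0) :
    1 / 8 ≤ s ∧ s ≤ 8 := by
  apply hκ.2
  intro h0
  apply h
  simp [fam, h0]

theorem fam_CB {κ : ℝ → ℂ} (hκ : Sm κ) (ρ : ℝ) (M : ℕ) :
    ∃ B : ℝ, 0 ≤ B ∧ ∀ a ∈ Icc (0 : ℝ) 1, CB M B (fam κ ρ a) := by
  have h1 : ∀ k : ℕ, ∃ B : ℝ, 0 ≤ B ∧ ∀ a ∈ Icc (0 : ℝ) 1, ∀ s,
      ‖iteratedDeriv k (fam κ ρ a) s‖ ≤ B := by
    intro k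
    obtain ⟨G, hG, hG2⟩ := iter_joint k _ (fam_smooth hκ ρ)
    have hc : IsCompact (Icc (0 : ℝ) 1 ×ˢ Icc (0 : ℝ) 9) := isCompact_Icc.prod isCompact_Icc
    obtain ⟨B, hB⟩ := hc.exists_bound_of_continuousOn hG.continuous.continuousOn
    refine ⟨max B 0, le_max_right _ _, ?_⟩
    intro a ha s
    by_cases hs : s ∈ Icc (0 : ℝ) 9
    · have h2 := hG2 a s
      have h3 : (fun s => fam κ ρ a s) = fam κ ρ a := rfl
      simp only at h2
      rw [h3] at h2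
      rw [h2]
      exact le_trans (hB (a, s) ⟨ha, hs⟩) (le_max_left _ _)
    · have h4 : (fam κ ρ a) =ᶠ[nhds s] fun _ => 0 := by
        rw [mem_Icc, not_and_or, not_le, not_le] at hs
        rcases hs with hs | hs
        · filter_upwards [isOpen_Iio.mem_nhds hs] with s' hs'
          by_contra h
          have := (fam_supp hκ ρ a s' h).1
          rw [mem_Iio] at hs'
          linarith
        · filter_upwards [isOpen_Ioi.mem_nhds hs] with s' hs'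
          by_contra h
          have := (fam_supp hκ ρ a s' h).2
          rw [mem_Ioi] at hs'
          linarith
      rw [h4.iteratedDeriv_eq]
      have h5 : ‖iteratedDeriv k (fun _ : ℝ => (0 : ℂ)) s‖ = 0 := by
        rcases Nat.eq_zero_or_pos k with hk | hk
        · subst hk; simp
        · rw [iteratedDeriv_const]; split_ifs <;> simp
      rw [h5]
      exact le_max_right _ _
  choose B hB0 hB using h1
  refine ⟨∑ k ∈ Finset.range (M + 1), B k, Finset.sum_nonneg fun k _ => hB0 k, ?_⟩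
  intro a ha
  refine ⟨?_, fun s hs => fam_supp hκ ρ a s hs, ?_⟩
  · exact (fam_smooth hκ ρ).comp (contDiff_const.prodMk contDiff_id)
  · intro k hk s
    refine le_trans (hB k a ha s) ?_
    exact Finset.single_le_sum (f := B) (fun i _ => hB0 i) (Finset.mem_range.mpr (by omega))

/-- radial cutoffs -/
theorem radial_smooth {d : ℕ} {κ : ℝ → ℂ} (hκ : Sm κ) {lam : ℝ} (hl : 0 < lam) :
    ContDiff ℝ (⊤ : ℕ∞) (fun ξ : EE d => κ (‖ξ‖ / lam)) ∧
      HasCompactSupport (fun ξ : EE d => κ (‖ξ‖ / lam)) := by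
  constructor
  · rw [contDiff_iff_contDiffAt]
    intro ξ
    by_cases hξ : ξ = 0
    · subst hξ
      have h1 : (fun ξ : EE d => κ (‖ξ‖ / lam)) =ᶠ[nhds 0] fun _ => 0 := by
        have h2 : IsOpen {ξ : EE d | ‖ξ‖ < lam / 8} := isOpen_lt continuous_norm continuous_const
        have h3 : (0 : EE d) ∈ {ξ : EE d | ‖ξ‖ < lam / 8} := by
          rw [mem_ofPred_eq, norm_zero]; positivity
        filter_upwards [h2.mem_nhds h3] with ξ hξ
        by_contra h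
        have h4 := (hκ.2 _ h).1
        rw [le_div_iff₀ hl] at h4
        linarith
      exact contDiffAt_const.congr_of_eventuallyEq h1
    · apply (hκ.1.contDiffAt).comp
      exact (contDiffAt_norm ℝ hξ).div_const _
  · refine HasCompactSupport.of_support_subset_isCompact (isCompact_closedBall 0 (8 * lam)) ?_
    intro ξ hξ
    rw [Function.mem_support] at hξ
    rw [mem_closedBall_zero_iff]
    have := (hκ.2 _ hξ).2
    rwa [div_le_iff₀ hl] at this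

theorem radial_temp {d : ℕ} {κ : ℝ → ℂ} (hκ : Sm κ) {lam : ℝ} (hl : 0 < lam) :
    (fun ξ : EE d => κ (‖ξ‖ / lam)).HasTemperateGrowth :=
  (radial_smooth hκ hl).2.hasTemperateGrowth (radial_smooth hκ hl).1

theorem radial_int {d : ℕ} {κ : ℝ → ℂ} (hκ : Sm κ) {lam : ℝ} (hl : 0 < lam) :
    Integrable (fun ξ : EE d => κ (‖ξ‖ / lam)) :=
  (radial_smooth hκ hl).1.continuous.integrable_of_hasCompactSupport (radial_smooth hκ hl).2

theorem fam_Sm {κ : ℝ → ℂ} (hκ : Sm κ) (ρ a : ℝ) : Sm (fam κ ρ a) :=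
  ⟨(fam_smooth hκ ρ).comp (contDiff_const.prodMk contDiff_id), fun s hs => fam_supp hκ ρ a s hs⟩

/-- the Bessel symbol -/
noncomputable def bs {d : ℕ} (ρ : ℝ) (ξ : EE d) : ℂ :=
  (((1 + 4 * Real.pi ^ 2 * ‖ξ‖ ^ 2) ^ (ρ / 2) : ℝ) : ℂ)

theorem bs_temp {d : ℕ} (ρ : ℝ) : (bs (d := d) ρ).HasTemperateGrowth := by
  have h1 : (fun x : EE d => (1 + ‖x‖ ^ 2) ^ (ρ / 2)).HasTemperateGrowth :=
    Function.hasTemperateGrowth_one_add_norm_sq_rpow (EE d) (ρ / 2)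
  have h2 : (fun x : EE d => (2 * Real.pi) • x).HasTemperateGrowth :=
    ((2 * Real.pi) • ContinuousLinearMap.id ℝ (EE d)).hasTemperateGrowth
  have h3 := h1.comp h2
  have h4 := Function.Complex.hasTemperateGrowth_ofReal.comp h3
  have h5 : bs (d := d) ρ = Complex.ofReal ∘ (fun x : EE d => (1 + ‖x‖ ^ 2) ^ (ρ / 2)) ∘
      fun x : EE d => (2 * Real.pi) • x := by
    funext ξ
    simp only [Function.comp, bs]
    congr 3
    rw [norm_smul, Real.norm_eq_abs, mul_pow, sq_abs]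
    ring
  rw [h5]
  exact h4

theorem besS_schwartz {d : ℕ} (ρ : ℝ) (u : 𝓢(EE d, ℂ)) :
    ∃ g : 𝓢(EE d, ℂ), (∀ ξ, 𝓕 (g : EE d → ℂ) ξ = bs ρ ξ * 𝓕 (u : EE d → ℂ) ξ) ∧
      ∀ x, g x = besS ρ u x := by
  obtain ⟨g, h1, h2⟩ := schwartz_mult (bs_temp (d := d) ρ) u
  refine ⟨g, h1, fun x => ?_⟩
  rw [h2, MM_eq]
  rfl

theorem fam_bs {d : ℕ} (κ : ℝ → ℂ) (ρ : ℝ) {lam : ℝ} (hl : 0 < lam) (ξ : EE d) :
    κ (‖ξ‖ / lam) = ((lam ^ (-ρ) : ℝ) : ℂ) * (fam κ ρ (1 / lam) (‖ξ‖ / lam) * bs ρ ξ) := by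
  unfold fam bs
  have h1 : (1 / lam) ^ 2 + 4 * Real.pi ^ 2 * (‖ξ‖ / lam) ^ 2 =
      lam ^ (-2 : ℝ) * (1 + 4 * Real.pi ^ 2 * ‖ξ‖ ^ 2) := by
    rw [Real.rpow_neg hl.le, Real.rpow_two]
    field_simp
  have hX : 0 < 1 + 4 * Real.pi ^ 2 * ‖ξ‖ ^ 2 := by positivity
  rw [h1, Real.mul_rpow (by positivity) hX.le, ← Real.rpow_mul hl.le]
  have h2 : lam ^ (-ρ) * (lam ^ (-2 * (-ρ / 2)) * (1 + 4 * Real.pi ^ 2 * ‖ξ‖ ^ 2) ^ (-ρ / 2)) *
      (1 + 4 * Real.pi ^ 2 * ‖ξ‖ ^ 2) ^ (ρ / 2) = 1 := by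
    rw [← mul_assoc, ← Real.rpow_add hl, mul_assoc, ← Real.rpow_add hX]
    have : -ρ + -2 * (-ρ / 2) = 0 := by ring
    rw [this]
    have : -ρ / 2 + ρ / 2 = 0 := by ring
    rw [this]; simp
  have h3 : (((lam ^ (-ρ) : ℝ) : ℂ) * ((((lam ^ (-2 * (-ρ / 2)) *
      (1 + 4 * Real.pi ^ 2 * ‖ξ‖ ^ 2) ^ (-ρ / 2) : ℝ)) : ℂ)) *
      ((((1 + 4 * Real.pi ^ 2 * ‖ξ‖ ^ 2) ^ (ρ / 2) : ℝ)) : ℂ)) = 1 := by
    exact_mod_cast congrArg (fun x : ℝ => (x : ℂ)) h2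
  linear_combination (-κ (‖ξ‖ / lam)) * h3

end Pool.Agent.H14.LS
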